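import Pool.Agent.Helper61.NW.Goals

/-!
# Project NW, packet CYN: the cylinder with `n` columns is a minor
-/

set_option autoImplicit false

namespace Pool.Agent.Helper53.NW

open Pool.Agent.Helper52.Wq2 Pool.Agent.Helper61.NW

universe u

section

variable {Γ : Type u} [Group Γ] {S : Set Γ} {h : Γ → ℤ} {s : Γ} {H n m : ℕ}

theorem h_one (T : Two S h s H n m) : h 1 = 0 := by
  have h1 := T.hom 1 1
  rw [mul_one] at h1
  omega

theorem h_inv (T : Two S h s H n m) (a : Γ) : h a⁻¹ = - h a := by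
  have h1 := T.hom a a⁻¹
  rw [mul_inv_cancel, h_one T] at h1
  omega

theorem h_pow (T : Two S h s H n m) (i : ℕ) : h (s ^ i) = i * H := by
  induction i with
  | zero => simp [h_one T]
  | succ i ih =>
    rw [pow_succ, T.hom, ih, T.Hs]
    push_cast
    ring

theorem h_zpow (T : Two S h s H n m) (i : ℤ) : h (s ^ i) = i * H := by
  rcases Int.eq_nat_or_neg i with ⟨k, rfl | rfl⟩
  · rw [zpow_natCast, h_pow T]
  · rw [zpow_neg, zpow_natCast, h_inv T, h_pow T]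
    ring

/-- the position on the line -/
def pos (h : Γ → ℤ) (H : ℕ) (g : Γ) : ℤ := h g / (H : ℤ)

theorem pos_mul (T : Two S h s H n m) (g : Γ) (i : ℤ) :
    pos h H (g * s ^ i) = pos h H g + i := by
  have h1 := T.Hpos
  unfold pos
  rw [T.hom, h_zpow T, Int.add_mul_ediv_right _ _ (by omega)]

theorem pos_edge (T : Two S h s H n m) (g : Γ) {t : Γ} (ht : t ∈ S) :
    pos h H g - 1 ≤ pos h H (g * t) ∧ pos h H (g * t) ≤ pos h H g + 1 := by
  have h1 : (0 : ℤ) < H := by exact_mod_cast T.Hpos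
  have h2 := abs_le.1 (T.max t ht)
  unfold pos
  rw [T.hom]
  have e1 : (h g + 1 * (H : ℤ)) / H = h g / H + 1 := Int.add_mul_ediv_right _ _ (by omega)
  have e2 : (h g + (-1) * (H : ℤ)) / H = h g / H + -1 := Int.add_mul_ediv_right _ _ (by omega)
  have m1 : (h g + h t) / (H : ℤ) ≤ (h g + 1 * (H : ℤ)) / H :=
    Int.ediv_le_ediv h1 (by linarith [h2.2])
  have m2 : (h g + (-1) * (H : ℤ)) / H ≤ (h g + h t) / (H : ℤ) :=
    Int.ediv_le_ediv h1 (by linarith [h2.1])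
  constructor <;> omega

theorem line_mul (g : Γ) (i : ℤ) :
    ((g * s ^ i : Γ) : Γ ⧸ Subgroup.zpowers s) = (g : Γ ⧸ Subgroup.zpowers s) :=
  QuotientGroup.mk_mul_of_mem g (Subgroup.mem_zpowers_iff.2 ⟨i, rfl⟩)

theorem line_eq {g g' : Γ}
    (hg : (g : Γ ⧸ Subgroup.zpowers s) = (g' : Γ ⧸ Subgroup.zpowers s)) :
    ∃ i : ℤ, g' = g * s ^ i := by
  rw [QuotientGroup.eq] at hg
  obtain ⟨i, hi⟩ := Subgroup.mem_zpowers_iff.1 hg
  exact ⟨i, by rw [hi]; group⟩

theorem central (T : Two S h s H n m) (g : Γ) (c : ℤ) :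
    g * s ^ ((m : ℤ) * c) = s ^ ((m : ℤ) * c) * g := by
  have h1 : Commute g (s ^ m) := T.cen g
  have h2 : Commute g ((s ^ m) ^ c) := h1.zpow_right c
  rw [zpow_mul, zpow_natCast]
  exact h2

theorem edge_shift (T : Two S h s H n m) (g : Γ) {t : Γ} (ht : t ∈ S) (c : ℤ) :
    (cay S).Adj (g * s ^ ((m : ℤ) * c)) (g * t * s ^ ((m : ℤ) * c)) := by
  rw [cay_adj T.gen]
  have h1 : (g * s ^ ((m : ℤ) * c))⁻¹ * (g * t * s ^ ((m : ℤ) * c)) = t := by
    rw [mul_assoc g t, central T t c]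
    group
  rwa [h1]

/-- an edge between two lines can be shifted into every block -/
theorem cross (T : Two S h s H n m) (g : Γ) {t : Γ} (ht : t ∈ S) (x : ℤ) :
    ∃ a b : Γ, (cay S).Adj a b ∧
      ((a : Γ ⧸ Subgroup.zpowers s) = (g : Γ ⧸ Subgroup.zpowers s)) ∧
      ((b : Γ ⧸ Subgroup.zpowers s) = ((g * t : Γ) : Γ ⧸ Subgroup.zpowers s)) ∧
      (((m : ℤ) + 1) * x ≤ pos h H a ∧ pos h H a < ((m : ℤ) + 1) * (x + 1)) ∧
      (((m : ℤ) + 1) * x ≤ pos h H b ∧ pos h H b < ((m : ℤ) + 1) * (x + 1)) := by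
  have hm : (0 : ℤ) < m := by exact_mod_cast T.mpos
  set p : ℤ := min (pos h H g) (pos h H (g * t)) with hp
  set y : ℤ := ((m : ℤ) + 1) * x with hy
  set c : ℤ := -((p - y) / m) with hc
  have e := pos_edge T g ht
  have h1 := Int.emod_nonneg (p - y) hm.ne'
  have h2 := Int.emod_lt_of_pos (p - y) hm
  have h3 := Int.emod_add_mul_ediv (p - y) m
  have h4 : (m : ℤ) * c = -((m : ℤ) * ((p - y) / m)) := by rw [hc]; ring
  have h5 : ((m : ℤ) + 1) * (x + 1) = y + m + 1 := by rw [hy]; ring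
  refine ⟨g * s ^ ((m : ℤ) * c), g * t * s ^ ((m : ℤ) * c), edge_shift T g ht c,
    line_mul _ _, line_mul _ _, ?_, ?_⟩
  · rw [pos_mul T, h5]
    rcases min_choice (pos h H g) (pos h H (g * t)) with h6 | h6
    · constructor <;> omega
    · have h7 := min_le_left (pos h H g) (pos h H (g * t))
      constructor <;> omega
  · rw [pos_mul T, h5]
    rcases min_choice (pos h H g) (pos h H (g * t)) with h6 | h6
    · have h7 := min_le_right (pos h H g) (pos h H (g * t))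
      constructor <;> omega
    · constructor <;> omega

end

theorem cyn : CynStmt.{u} := by
  intro Γ _ S h s H n m T hn e he
  have hm : (0 : ℤ) < m := by exact_mod_cast T.mpos
  have hL : (0 : ℤ) < (m : ℤ) + 1 := by omega
  refine ⟨fun v => {g : Γ | e (g : Γ ⧸ Subgroup.zpowers s) = v.2 ∧
    ((m : ℤ) + 1) * v.1 ≤ pos h H g ∧ pos h H g < ((m : ℤ) + 1) * (v.1 + 1)}, ?_, ?_, ?_⟩
  · rintro ⟨x, j⟩
    obtain ⟨g, hg⟩ := QuotientGroup.mk_surjective (e.symm j)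
    have hset : {g' : Γ | e (g' : Γ ⧸ Subgroup.zpowers s) = j ∧
        ((m : ℤ) + 1) * x ≤ pos h H g' ∧ pos h H g' < ((m : ℤ) + 1) * (x + 1)} =
        {v : Γ | ∃ i : ℤ, (((m : ℤ) + 1) * x ≤ pos h H g + i ∧
          pos h H g + i < ((m : ℤ) + 1) * (x + 1)) ∧ g * s ^ i = v} := by
      ext g'
      constructor
      · rintro ⟨h1, h2⟩
        have h3 : (g : Γ ⧸ Subgroup.zpowers s) = (g' : Γ ⧸ Subgroup.zpowers s) := by
          rw [← h1, Equiv.symm_apply_apply] at hg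
          exact hg
        obtain ⟨i, hi⟩ := line_eq h3
        subst hi
        rw [pos_mul T] at h2
        exact ⟨i, h2, rfl⟩
      · rintro ⟨i, h1, rfl⟩
        refine ⟨?_, ?_⟩
        · rw [line_mul]
          have h4 : (g : Γ ⧸ Subgroup.zpowers s) = e.symm j := hg
          rw [h4, Equiv.apply_symm_apply]
        · rw [pos_mul T]
          exact h1
    show Conn (cay S) {g' : Γ | e (g' : Γ ⧸ Subgroup.zpowers s) = j ∧
        ((m : ℤ) + 1) * x ≤ pos h H g' ∧ pos h H g' < ((m : ℤ) + 1) * (x + 1)}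
    rw [hset]
    have h5 : ((m : ℤ) + 1) * (x + 1) = ((m : ℤ) + 1) * x + m + 1 := by ring
    refine conn_line (fun i => g * s ^ i) _ (((m : ℤ) + 1) * x - pos h H g) ?_ ?_ ?_ ?_
    · constructor <;> omega
    · intro i hi hP
      constructor <;> omega
    · intro i hi hP
      constructor <;> omega
    · intro i _ _
      show (cay S).Adj (g * s ^ i) (g * s ^ (i + 1))
      rw [zpow_add_one, ← mul_assoc]
      exact cay_adj_mul T.gen _ T.hs
  · rintro ⟨x, j⟩ ⟨x', j'⟩ g ⟨h1, h2, h3⟩ ⟨h1', h2', h3'⟩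
    have hj : j = j' := h1.symm.trans h1'
    have hx : x = x' := by
      have a1 : ((m : ℤ) + 1) * x < ((m : ℤ) + 1) * (x' + 1) := lt_of_le_of_lt h2 h3'
      have a2 : ((m : ℤ) + 1) * x' < ((m : ℤ) + 1) * (x + 1) := lt_of_le_of_lt h2' h3
      have b1 := lt_of_mul_lt_mul_left a1 hL.le
      have b2 := lt_of_mul_lt_mul_left a2 hL.le
      omega
    rw [hj, hx]
  · -- edges
    have up : ∀ (x : ℤ) (j : ZMod n),
        ∃ a : Γ, (e (a : Γ ⧸ Subgroup.zpowers s) = j ∧ ((m : ℤ) + 1) * x ≤ pos h H a ∧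
          pos h H a < ((m : ℤ) + 1) * (x + 1)) ∧
        ∃ b : Γ, (e (b : Γ ⧸ Subgroup.zpowers s) = j ∧ ((m : ℤ) + 1) * (x + 1) ≤ pos h H b ∧
          pos h H b < ((m : ℤ) + 1) * (x + 1 + 1)) ∧ (cay S).Adj a b := by
      intro x j
      obtain ⟨g, hg⟩ := QuotientGroup.mk_surjective (e.symm j)
      have h4 : e (g : Γ ⧸ Subgroup.zpowers s) = j := by
        have h5 : (g : Γ ⧸ Subgroup.zpowers s) = e.symm j := hg
        rw [h5, Equiv.apply_symm_apply]
      have h5 : ((m : ℤ) + 1) * (x + 1) = ((m : ℤ) + 1) * x + m + 1 := by ring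
      have h6 : ((m : ℤ) + 1) * (x + 1 + 1) = ((m : ℤ) + 1) * x + m + 1 + m + 1 := by ring
      refine ⟨g * s ^ (((m : ℤ) + 1) * x + m - pos h H g), ⟨?_, ?_, ?_⟩,
        g * s ^ (((m : ℤ) + 1) * x + m - pos h H g) * s, ⟨?_, ?_, ?_⟩, cay_adj_mul T.gen _ T.hs⟩
      · rw [line_mul, h4]
      · rw [pos_mul T]; omega
      · rw [pos_mul T]; omega
      · rw [mul_assoc, ← zpow_add_one, line_mul, h4]
      · rw [mul_assoc, ← zpow_add_one, pos_mul T]; omega
      · rw [mul_assoc, ← zpow_add_one, pos_mul T]; omega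
    have side : ∀ (x : ℤ) (j : ZMod n),
        ∃ a : Γ, (e (a : Γ ⧸ Subgroup.zpowers s) = j ∧ ((m : ℤ) + 1) * x ≤ pos h H a ∧
          pos h H a < ((m : ℤ) + 1) * (x + 1)) ∧
        ∃ b : Γ, (e (b : Γ ⧸ Subgroup.zpowers s) = j + 1 ∧ ((m : ℤ) + 1) * x ≤ pos h H b ∧
          pos h H b < ((m : ℤ) + 1) * (x + 1)) ∧ (cay S).Adj a b := by
      intro x j
      have hadj : (Ln S s).Adj (e.symm j) (e.symm (j + 1)) := by
        rw [he]
        left
        rw [Equiv.apply_symm_apply, Equiv.apply_symm_apply]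
      unfold Ln at hadj
      rw [SimpleGraph.fromRel_adj] at hadj
      rcases hadj.2 with ⟨g, t, ht, hg1, hg2⟩ | ⟨g, t, ht, hg1, hg2⟩
      · obtain ⟨a, b, hab, ha, hb, ha', hb'⟩ := cross T g ht x
        refine ⟨a, ⟨?_, ha'⟩, b, ⟨?_, hb'⟩, hab⟩
        · rw [ha, hg1, Equiv.apply_symm_apply]
        · rw [hb, hg2, Equiv.apply_symm_apply]
      · obtain ⟨a, b, hab, ha, hb, ha', hb'⟩ := cross T g ht x
        refine ⟨b, ⟨?_, hb'⟩, a, ⟨?_, ha'⟩, hab.symm⟩
        · rw [hb, hg2, Equiv.apply_symm_apply]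
        · rw [ha, hg1, Equiv.apply_symm_apply]
    rintro ⟨x, j⟩ ⟨x', j'⟩ hadj
    unfold Cyl at hadj
    rw [SimpleGraph.fromRel_adj] at hadj
    simp only at hadj
    rcases hadj.2 with (⟨rfl, rfl⟩ | ⟨rfl, rfl⟩) | (⟨rfl, rfl⟩ | ⟨rfl, rfl⟩)
    · obtain ⟨a, ha, b, hb, hab⟩ := up x j
      exact ⟨a, ha, b, hb, hab⟩
    · obtain ⟨a, ha, b, hb, hab⟩ := side x j
      exact ⟨a, ha, b, hb, hab⟩
    · obtain ⟨a, ha, b, hb, hab⟩ := up x' j'
      exact ⟨b, hb, a, ha, hab.symm⟩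
    · obtain ⟨a, ha, b, hb, hab⟩ := side x' j'
      exact ⟨b, hb, a, ha, hab.symm⟩

end Pool.Agent.Helper53.NW
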