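import Pool.Agent.Helper61.NW.Goals2

/-!
# Project NW+, packet LCN: the cylinder with `n` columns is a minor of a line system
-/

set_option autoImplicit false

namespace Pool.Agent.Helper53.NW

open Pool.Agent.Helper52.Wq2 Pool.Agent.Helper61.NW

variable {n m : ℕ} {G : SimpleGraph (ℤ × Fin n)}

theorem lper (L : Lsys n m G) (c a b : ℤ) (i j : Fin n) :
    G.Adj (a, i) (b, j) ↔ G.Adj (a + m * c, i) (b + m * c, j) := by
  induction c using Int.induction_on with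
  | zero => simp
  | succ c ih =>
    have e1 : a + (m : ℤ) * ((c : ℤ) + 1) = a + m * c + m := by ring
    have e2 : b + (m : ℤ) * ((c : ℤ) + 1) = b + m * c + m := by ring
    rw [e1, e2, ← L.per]
    exact ih
  | pred c ih =>
    have e1 : a + (m : ℤ) * (-(c : ℤ)) = a + m * (-(c : ℤ) - 1) + m := by ring
    have e2 : b + (m : ℤ) * (-(c : ℤ)) = b + m * (-(c : ℤ) - 1) + m := by ring
    rw [ih, e1, e2, ← L.per]

/-- an edge between two lines can be shifted into every block -/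
theorem lcross (L : Lsys n m G) {a b : ℤ} {i j : Fin n} (hadj : G.Adj (a, i) (b, j)) (x : ℤ) :
    ∃ a' b' : ℤ, G.Adj (a', i) (b', j) ∧
      (((m : ℤ) + 1) * x ≤ a' ∧ a' < ((m : ℤ) + 1) * (x + 1)) ∧
      (((m : ℤ) + 1) * x ≤ b' ∧ b' < ((m : ℤ) + 1) * (x + 1)) := by
  have hm : (0 : ℤ) < m := by exact_mod_cast L.mpos
  have e := abs_le.1 (L.near a b i j hadj)
  set p : ℤ := min a b with hp
  set y : ℤ := ((m : ℤ) + 1) * x with hy
  set c : ℤ := -((p - y) / m) with hc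
  have h1 := Int.emod_nonneg (p - y) hm.ne'
  have h2 := Int.emod_lt_of_pos (p - y) hm
  have h3 := Int.emod_add_mul_ediv (p - y) m
  have h4 : (m : ℤ) * c = -((m : ℤ) * ((p - y) / m)) := by rw [hc]; ring
  have h5 : ((m : ℤ) + 1) * (x + 1) = y + m + 1 := by rw [hy]; ring
  refine ⟨a + m * c, b + m * c, (lper L c a b i j).1 hadj, ?_, ?_⟩
  · rw [h5]
    rcases min_choice a b with h6 | h6
    · constructor <;> omega
    · have h7 := min_le_left a b
      constructor <;> omega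
  · rw [h5]
    rcases min_choice a b with h6 | h6
    · have h7 := min_le_right a b
      constructor <;> omega
    · constructor <;> omega

theorem lcn : LcnStmt := by
  intro n m G L hn e he
  have hm : (0 : ℤ) < m := by exact_mod_cast L.mpos
  have hL : (0 : ℤ) < (m : ℤ) + 1 := by omega
  refine ⟨fun v => {p : ℤ × Fin n | ∃ a : ℤ, (((m : ℤ) + 1) * v.1 ≤ a ∧
    a < ((m : ℤ) + 1) * (v.1 + 1)) ∧ ((a, e.symm v.2) : ℤ × Fin n) = p}, ?_, ?_, ?_⟩
  · rintro ⟨x, j⟩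
    have h5 : ((m : ℤ) + 1) * (x + 1) = ((m : ℤ) + 1) * x + m + 1 := by ring
    refine conn_line (fun a => ((a, e.symm j) : ℤ × Fin n)) _ (((m : ℤ) + 1) * x) ?_ ?_ ?_ ?_
    · simp only
      constructor <;> omega
    · intro i hi hP
      simp only at hP ⊢
      constructor <;> omega
    · intro i hi hP
      simp only at hP ⊢
      constructor <;> omega
    · intro i _ _
      exact L.step i (e.symm j)
  · rintro ⟨x, j⟩ ⟨x', j'⟩ p ⟨a, ⟨h2, h3⟩, rfl⟩ ⟨a', ⟨h2', h3'⟩, hp⟩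
    simp only at h2 h3 h2' h3' hp
    obtain ⟨ha, hj⟩ := Prod.mk.inj hp
    subst ha
    have hj' : j = j' := e.symm.injective hj.symm
    have hx : x = x' := by
      have a1 : ((m : ℤ) + 1) * x < ((m : ℤ) + 1) * (x' + 1) := lt_of_le_of_lt h2 h3'
      have a2 : ((m : ℤ) + 1) * x' < ((m : ℤ) + 1) * (x + 1) := lt_of_le_of_lt h2' h3
      have b1 := lt_of_mul_lt_mul_left a1 hL.le
      have b2 := lt_of_mul_lt_mul_left a2 hL.le
      omega
    rw [hj', hx]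
  · have up : ∀ (x : ℤ) (j : ZMod n),
        ∃ a : ℤ, (((m : ℤ) + 1) * x ≤ a ∧ a < ((m : ℤ) + 1) * (x + 1)) ∧
        ∃ b : ℤ, (((m : ℤ) + 1) * (x + 1) ≤ b ∧ b < ((m : ℤ) + 1) * (x + 1 + 1)) ∧
          G.Adj (a, e.symm j) (b, e.symm j) := by
      intro x j
      have h5 : ((m : ℤ) + 1) * (x + 1) = ((m : ℤ) + 1) * x + m + 1 := by ring
      have h6 : ((m : ℤ) + 1) * (x + 1 + 1) = ((m : ℤ) + 1) * x + m + 1 + m + 1 := by ring
      refine ⟨((m : ℤ) + 1) * x + m, ⟨by omega, by omega⟩, ((m : ℤ) + 1) * x + m + 1,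
        ⟨by omega, by omega⟩, L.step _ _⟩
    have side : ∀ (x : ℤ) (j : ZMod n),
        ∃ a : ℤ, (((m : ℤ) + 1) * x ≤ a ∧ a < ((m : ℤ) + 1) * (x + 1)) ∧
        ∃ b : ℤ, (((m : ℤ) + 1) * x ≤ b ∧ b < ((m : ℤ) + 1) * (x + 1)) ∧
          G.Adj (a, e.symm j) (b, e.symm (j + 1)) := by
      intro x j
      have hadj : (Lg G).Adj (e.symm j) (e.symm (j + 1)) := by
        rw [he]
        left
        rw [Equiv.apply_symm_apply, Equiv.apply_symm_apply]
      unfold Lg at hadj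
      rw [SimpleGraph.fromRel_adj] at hadj
      rcases hadj.2 with ⟨a, b, hab⟩ | ⟨a, b, hab⟩
      · obtain ⟨a', b', h1, h2, h3⟩ := lcross L hab x
        exact ⟨a', h2, b', h3, h1⟩
      · obtain ⟨a', b', h1, h2, h3⟩ := lcross L hab x
        exact ⟨b', h3, a', h2, h1.symm⟩
    rintro ⟨x, j⟩ ⟨x', j'⟩ hadj
    unfold Cyl at hadj
    rw [SimpleGraph.fromRel_adj] at hadj
    simp only at hadj
    rcases hadj.2 with (⟨rfl, rfl⟩ | ⟨rfl, rfl⟩) | (⟨rfl, rfl⟩ | ⟨rfl, rfl⟩)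
    · obtain ⟨a, ha, b, hb, hab⟩ := up x j
      exact ⟨_, ⟨a, ha, rfl⟩, _, ⟨b, hb, rfl⟩, hab⟩
    · obtain ⟨a, ha, b, hb, hab⟩ := side x j
      exact ⟨_, ⟨a, ha, rfl⟩, _, ⟨b, hb, rfl⟩, hab⟩
    · obtain ⟨a, ha, b, hb, hab⟩ := up x' j'
      exact ⟨_, ⟨b, hb, rfl⟩, _, ⟨a, ha, rfl⟩, hab.symm⟩
    · obtain ⟨a, ha, b, hb, hab⟩ := side x' j'
      exact ⟨_, ⟨b, hb, rfl⟩, _, ⟨a, ha, rfl⟩, hab.symm⟩

end Pool.Agent.Helper53.NW
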