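import Pool.Agent.Helper53.NW.Strands

/-!
# Project NW, packet CRX: a cycle of lines with crossings
-/

set_option autoImplicit false

namespace Pool.Agent.Helper53.NW

open Pool.Agent.Helper52.Wq2 Pool.Agent.Helper61.NW

universe u

section

variable {Γ : Type u} [Group Γ] {S : Set Γ} {h : Γ → ℤ} {s : Γ} {H n m : ℕ}

/-- a crossing between two lines -/
def Cr (S : Set Γ) (h : Γ → ℤ) (s : Γ) (H : ℕ) (A B : Γ ⧸ Subgroup.zpowers s) : Prop :=
  ∃ a b : Γ, (a : Γ ⧸ Subgroup.zpowers s) = A ∧ (b : Γ ⧸ Subgroup.zpowers s) = B ∧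
    h b = h a + H ∧ a⁻¹ * b ∈ S ∧ (a * s)⁻¹ * (b * s⁻¹) ∈ S

theorem line_one (g : Γ) :
    ((g * s : Γ) : Γ ⧸ Subgroup.zpowers s) = (g : Γ ⧸ Subgroup.zpowers s) := by
  have := line_mul (s := s) g 1
  rwa [zpow_one] at this

theorem line_inv (g : Γ) :
    ((g * s⁻¹ : Γ) : Γ ⧸ Subgroup.zpowers s) = (g : Γ ⧸ Subgroup.zpowers s) := by
  have := line_mul (s := s) g (-1)
  rwa [zpow_neg_one] at this

theorem cr_symm (T : Two S h s H n m) {A B : Γ ⧸ Subgroup.zpowers s} (hc : Cr S h s H A B) :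
    Cr S h s H B A := by
  obtain ⟨a, b, rfl, rfl, h1, h2, h3⟩ := hc
  refine ⟨b * s⁻¹, a * s, line_inv b, line_one a, ?_, ?_, ?_⟩
  · rw [T.hom, T.hom, h_inv T, T.Hs, h1]
    ring
  · have := T.gen.2.1 _ h3
    have e : ((a * s)⁻¹ * (b * s⁻¹))⁻¹ = (b * s⁻¹)⁻¹ * (a * s) := by group
    rwa [e] at this
  · have := T.gen.2.1 _ h2
    have e : (a⁻¹ * b)⁻¹ = (b * s⁻¹ * s)⁻¹ * (a * s * s⁻¹) := by group
    rwa [e] at this

theorem cr_smul (T : Two S h s H n m) (x : Γ) {A B : Γ ⧸ Subgroup.zpowers s}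
    (hc : Cr S h s H A B) : Cr S h s H (x • A) (x • B) := by
  obtain ⟨a, b, rfl, rfl, h1, h2, h3⟩ := hc
  refine ⟨x * a, x * b, rfl, rfl, ?_, ?_, ?_⟩
  · rw [T.hom, T.hom, h1]
    ring
  · have e : (x * a)⁻¹ * (x * b) = a⁻¹ * b := by group
    rwa [e]
  · have e : (x * a * s)⁻¹ * (x * b * s⁻¹) = (a * s)⁻¹ * (b * s⁻¹) := by group
    rwa [e]

theorem ln_smul (x : Γ) {A B : Γ ⧸ Subgroup.zpowers s} (hc : (Ln S s).Adj A B) :
    (Ln S s).Adj (x • A) (x • B) := by
  unfold Ln at hc ⊢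
  rw [SimpleGraph.fromRel_adj] at hc ⊢
  obtain ⟨h1, h2⟩ := hc
  refine ⟨fun h' => h1 (smul_left_cancel x h'), ?_⟩
  rcases h2 with ⟨g, t, ht, rfl, rfl⟩ | ⟨g, t, ht, rfl, rfl⟩
  · left
    exact ⟨x * g, t, ht, rfl, by rw [mul_assoc]; rfl⟩
  · right
    exact ⟨x * g, t, ht, rfl, by rw [mul_assoc]; rfl⟩

theorem exists_smul (A B : Γ ⧸ Subgroup.zpowers s) : ∃ x : Γ, x • A = B := by
  obtain ⟨a, rfl⟩ := QuotientGroup.mk_surjective A
  obtain ⟨b, rfl⟩ := QuotientGroup.mk_surjective B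
  refine ⟨b * a⁻¹, ?_⟩
  show ((b * a⁻¹ * a : Γ) : Γ ⧸ Subgroup.zpowers s) = _
  rw [inv_mul_cancel_right]

theorem crs_iff (e : (Γ ⧸ Subgroup.zpowers s) ≃ ZMod n) (j : ZMod n) :
    Crs S h s H n e j ↔ Cr S h s H (e.symm j) (e.symm (j + 1)) := by
  constructor
  · rintro ⟨a, b, h1, h2, h3⟩
    exact ⟨a, b, by rw [← h1, Equiv.symm_apply_apply], by rw [← h2, Equiv.symm_apply_apply], h3⟩
  · rintro ⟨a, b, h1, h2, h3⟩
    exact ⟨a, b, by rw [h1, Equiv.apply_symm_apply], by rw [h2, Equiv.apply_symm_apply], h3⟩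

/-- neighbours of a translated line -/
theorem nb (e : (Γ ⧸ Subgroup.zpowers s) ≃ ZMod n) (he : IsCyc S s n e) {j j' k : ZMod n}
    (x : Γ) (hx : x • e.symm j = e.symm k) (hj : j' = j + 1 ∨ j = j' + 1) :
    e (x • e.symm j') = k + 1 ∨ e (x • e.symm j') = k - 1 := by
  have h1 : (Ln S s).Adj (e.symm j) (e.symm j') := by
    rw [he, Equiv.apply_symm_apply, Equiv.apply_symm_apply]
    exact hj
  have h2 := ln_smul x h1
  rw [hx, he, Equiv.apply_symm_apply] at h2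
  rcases h2 with h2 | h2
  · exact Or.inl h2
  · right
    rw [h2]
    ring

theorem step1 (T : Two S h s H n m) (e : (Γ ⧸ Subgroup.zpowers s) ≃ ZMod n)
    (he : IsCyc S s n e) {j : ZMod n} (hj : Crs S h s H n e j) (k : ZMod n) :
    Crs S h s H n e k ∨ Crs S h s H n e (k - 1) := by
  rw [crs_iff] at hj
  obtain ⟨x, hx⟩ := exists_smul (e.symm j) (e.symm k)
  have h1 := cr_smul T x hj
  rw [hx] at h1
  have h2 := nb e he x hx (j' := j + 1) (Or.inl rfl)
  rcases h2 with h2 | h2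
  · left
    rw [crs_iff, ← h2, Equiv.symm_apply_apply]
    exact h1
  · right
    rw [crs_iff, ← h2, Equiv.symm_apply_apply]
    have h3 : e (x • e.symm (j + 1)) + 1 = k := by rw [h2]; ring
    rw [h3]
    exact cr_symm T h1

theorem two_ne (hn : 3 ≤ n) (j : ZMod n) : j + 1 ≠ j - 1 := by
  intro h1
  have h2 : ((2 : ℕ) : ZMod n) = 0 := by
    have : (2 : ZMod n) = (j + 1) - (j - 1) := by ring
    push_cast
    rw [this, h1, sub_self]
  rw [ZMod.natCast_eq_zero_iff] at h2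
  have := Nat.le_of_dvd (by norm_num) h2
  omega

theorem step2 (T : Two S h s H n m) (hn : 3 ≤ n) (e : (Γ ⧸ Subgroup.zpowers s) ≃ ZMod n)
    (he : IsCyc S s n e) {j : ZMod n} (hj : Crs S h s H n e j) (hj' : Crs S h s H n e (j - 1))
    (k : ZMod n) : Crs S h s H n e k := by
  rw [crs_iff] at hj hj'
  obtain ⟨x, hx⟩ := exists_smul (e.symm j) (e.symm k)
  have h1 := cr_smul T x hj
  have h1' := cr_smul T x hj'
  rw [sub_add_cancel, hx] at h1'
  rw [hx] at h1
  have h2 := nb e he x hx (j' := j + 1) (Or.inl rfl)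
  have h2' := nb e he x hx (j' := j - 1) (Or.inr (by ring))
  rcases h2 with h2 | h2
  · rw [crs_iff, ← h2, Equiv.symm_apply_apply]
    exact h1
  · rcases h2' with h2' | h2'
    · rw [crs_iff, ← h2', Equiv.symm_apply_apply]
      exact cr_symm T h1'
    · exfalso
      have h3 := e.injective (h2.trans h2'.symm)
      have h4 := e.symm.injective (smul_left_cancel x h3)
      exact two_ne hn j h4

theorem alt (T : Two S h s H n m) (hn : 3 ≤ n) (e : (Γ ⧸ Subgroup.zpowers s) ≃ ZMod n)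
    (he : IsCyc S s n e) (hex : ∃ j, Crs S h s H n e j) :
    ∃ r : ZMod n, ∀ i : ℕ, Crs S h s H n e (r + ((2 * i + 1 : ℕ) : ZMod n)) := by
  obtain ⟨j, hj⟩ := hex
  by_cases hb : ∃ k, Crs S h s H n e k ∧ Crs S h s H n e (k - 1)
  · obtain ⟨k, hk, hk'⟩ := hb
    exact ⟨0, fun i => step2 T hn e he hk hk' _⟩
  · refine ⟨j - 1, ?_⟩
    intro i
    induction i with
    | zero =>
      have e1 : j - 1 + ((2 * 0 + 1 : ℕ) : ZMod n) = j := by push_cast; ring
      rw [e1]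
      exact hj
    | succ i ih =>
      set r : ZMod n := j - 1 + ((2 * i + 1 : ℕ) : ZMod n) with hr
      have e1 : j - 1 + ((2 * (i + 1) + 1 : ℕ) : ZMod n) = r + 2 := by
        rw [hr]; push_cast; ring
      rw [e1]
      rcases step1 T e he hj (r + 2) with h1 | h1
      · exact h1
      · exfalso
        have e2 : r + 2 - 1 = r + 1 := by ring
        rw [e2] at h1
        refine hb ⟨r + 1, h1, ?_⟩
        rw [add_sub_cancel_right]
        exact ih

/-- the point of height `x` on the line `j` -/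
noncomputable def pt (h : Γ → ℤ) (H : ℕ) (e : (Γ ⧸ Subgroup.zpowers s) ≃ ZMod n)
    (p : ℤ × ZMod n) : Γ :=
  (e.symm p.2).out * s ^ (p.1 - pos h H (e.symm p.2).out)

theorem pt_line (e : (Γ ⧸ Subgroup.zpowers s) ≃ ZMod n) (p : ℤ × ZMod n) :
    e ((pt h H e p : Γ) : Γ ⧸ Subgroup.zpowers s) = p.2 := by
  unfold pt
  rw [line_mul, QuotientGroup.out_eq', Equiv.apply_symm_apply]

theorem pt_pos (T : Two S h s H n m) (e : (Γ ⧸ Subgroup.zpowers s) ≃ ZMod n) (p : ℤ × ZMod n) :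
    pos h H (pt h H e p) = p.1 := by
  unfold pt
  rw [pos_mul T]
  ring

theorem pt_add (e : (Γ ⧸ Subgroup.zpowers s) ≃ ZMod n) (x c : ℤ) (j : ZMod n) :
    pt h H e (x + c, j) = pt h H e (x, j) * s ^ c := by
  unfold pt
  rw [mul_assoc, ← zpow_add]
  congr 2
  ring

theorem pt_eq (T : Two S h s H n m) (e : (Γ ⧸ Subgroup.zpowers s) ≃ ZMod n) (g : Γ)
    {j : ZMod n} (hj : e (g : Γ ⧸ Subgroup.zpowers s) = j) : pt h H e (pos h H g, j) = g := by
  have h1 : ((pt h H e (pos h H g, j) : Γ) : Γ ⧸ Subgroup.zpowers s) = (g : Γ ⧸ Subgroup.zpowers s) := by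
    apply e.injective
    rw [pt_line, hj]
  obtain ⟨i, hi⟩ := line_eq h1
  have h2 := congrArg (pos h H) hi
  rw [pos_mul T, pt_pos T] at h2
  have h3 : i = 0 := by
    simp only at h2
    omega
  rw [h3, zpow_zero, mul_one] at hi
  exact hi.symm

theorem pt_inj (T : Two S h s H n m) (e : (Γ ⧸ Subgroup.zpowers s) ≃ ZMod n) :
    Function.Injective (pt h H e) := by
  intro p p' hp
  have h1 := congrArg (pos h H) hp
  rw [pt_pos T, pt_pos T] at h1
  have h2 : e ((pt h H e p : Γ) : Γ ⧸ Subgroup.zpowers s) = e ((pt h H e p' : Γ) : Γ ⧸ Subgroup.zpowers s) := by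
    rw [hp]
  rw [pt_line, pt_line] at h2
  exact Prod.ext h1 h2

/-- the graph on the coordinates -/
noncomputable def Gr (S : Set Γ) (h : Γ → ℤ) (H : ℕ) (e : (Γ ⧸ Subgroup.zpowers s) ≃ ZMod n) :
    SimpleGraph (ℤ × ZMod n) := (cay S).comap (pt h H e)

theorem gr_ly (T : Two S h s H n m) (e : (Γ ⧸ Subgroup.zpowers s) ≃ ZMod n) :
    Ly (Gr S h H e) m where
  mpos := T.mpos
  up := by
    intro x j
    show (cay S).Adj (pt h H e (x, j)) (pt h H e (x + 1, j))
    rw [pt_add, zpow_one]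
    exact cay_adj_mul T.gen _ T.hs
  sh := by
    intro c x j y k hadj
    have h1 : (cay S).Adj (pt h H e (x, j)) (pt h H e (y, k)) := hadj
    show (cay S).Adj (pt h H e (x + m * c, j)) (pt h H e (y + m * c, k))
    rw [pt_add, pt_add, cay_adj T.gen, central T, central T]
    rw [cay_adj T.gen] at h1
    have e1 : (s ^ ((m : ℤ) * c) * pt h H e (x, j))⁻¹ * (s ^ ((m : ℤ) * c) * pt h H e (y, k)) =
        (pt h H e (x, j))⁻¹ * pt h H e (y, k) := by group
    rwa [e1]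

theorem gr_edge (T : Two S h s H n m) (e : (Γ ⧸ Subgroup.zpowers s) ≃ ZMod n)
    (he : IsCyc S s n e) (j : ZMod n) :
    ∃ x y : ℤ, (x - 1 ≤ y ∧ y ≤ x + 1) ∧ (Gr S h H e).Adj (x, j) (y, j + 1) := by
  have hadj : (Ln S s).Adj (e.symm j) (e.symm (j + 1)) := by
    rw [he]
    left
    rw [Equiv.apply_symm_apply, Equiv.apply_symm_apply]
  unfold Ln at hadj
  rw [SimpleGraph.fromRel_adj] at hadj
  rcases hadj.2 with ⟨g, t, ht, hg1, hg2⟩ | ⟨g, t, ht, hg1, hg2⟩
  · refine ⟨pos h H g, pos h H (g * t), pos_edge T g ht, ?_⟩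
    show (cay S).Adj (pt h H e (pos h H g, j)) (pt h H e (pos h H (g * t), j + 1))
    rw [pt_eq T e g (by rw [hg1, Equiv.apply_symm_apply]),
      pt_eq T e (g * t) (by rw [hg2, Equiv.apply_symm_apply])]
    exact cay_adj_mul T.gen _ ht
  · have h1 := pos_edge T g ht
    refine ⟨pos h H (g * t), pos h H g, by constructor <;> omega, ?_⟩
    show (cay S).Adj (pt h H e (pos h H (g * t), j)) (pt h H e (pos h H g, j + 1))
    rw [pt_eq T e g (by rw [hg1, Equiv.apply_symm_apply]),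
      pt_eq T e (g * t) (by rw [hg2, Equiv.apply_symm_apply])]
    exact (cay_adj_mul T.gen _ ht).symm

theorem gr_cross (T : Two S h s H n m) (e : (Γ ⧸ Subgroup.zpowers s) ≃ ZMod n) {j : ZMod n}
    (hj : Crs S h s H n e j) :
    ∃ x : ℤ, (Gr S h H e).Adj (x, j) (x + 1, j + 1) ∧ (Gr S h H e).Adj (x + 1, j) (x, j + 1) := by
  obtain ⟨a, b, ha, hb, h1, h2, h3⟩ := hj
  have hb' : pos h H b = pos h H a + 1 := by
    have h4 := T.Hpos
    unfold pos
    have e1 : (h a + 1 * (H : ℤ)) / H = h a / H + 1 := Int.add_mul_ediv_right _ _ (by omega)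
    rw [h1]
    rwa [one_mul] at e1
  refine ⟨pos h H a, ?_, ?_⟩
  · show (cay S).Adj (pt h H e (pos h H a, j)) (pt h H e (pos h H a + 1, j + 1))
    rw [← hb', pt_eq T e a ha, pt_eq T e b hb, cay_adj T.gen]
    exact h2
  · show (cay S).Adj (pt h H e (pos h H a + 1, j)) (pt h H e (pos h H a, j + 1))
    have e1 : pos h H a = pos h H b + (-1) := by omega
    rw [pt_add, zpow_one, pt_eq T e a ha]
    rw [e1, pt_add, zpow_neg_one, pt_eq T e b hb, cay_adj T.gen]
    exact h3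

end

theorem crx : CrxStmt.{u} := by
  intro Γ _ S h s H n m T hn e he hex q hq
  obtain ⟨r, hr⟩ := alt T hn e he hex
  have h1 : Mn (StarZ (Fin q)) (Gr S h H e) := by
    refine strands (gr_ly T e) q (fun a : ℕ => r + (a : ZMod n)) ?_ ?_ ?_
    · intro a b ha hb hab
      have h2 := add_left_cancel hab
      rw [ZMod.natCast_eq_natCast_iff'] at h2
      rw [Nat.mod_eq_of_lt (by omega), Nat.mod_eq_of_lt (by omega)] at h2
      exact h2
    · intro a
      obtain ⟨x, y, hxy, hadj⟩ := gr_edge T e he (r + (a : ZMod n))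
      refine ⟨x, y, hxy, ?_⟩
      have e1 : r + (a : ZMod n) + 1 = r + ((a + 1 : ℕ) : ZMod n) := by push_cast; ring
      rw [e1] at hadj
      exact hadj
    · intro i
      obtain ⟨x, hx1, hx2⟩ := gr_cross T e (hr i)
      have e1 : r + ((2 * i + 1 : ℕ) : ZMod n) + 1 = r + ((2 * i + 2 : ℕ) : ZMod n) := by
        push_cast; ring
      rw [e1] at hx1 hx2
      exact ⟨x, hx1, hx2⟩
  exact h1.trans (Mn.of_inj (pt h H e) (pt_inj T e) (fun a b hab => hab))

end Pool.Agent.Helper53.NW
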