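import Pool.Agent.Helper71.NW.NUM

/-!
# Project NW+, packet DIH: the dihedral type gives line systems
-/

set_option autoImplicit false

namespace Pool.Agent.Helper53.NW

open Pool.Agent.Helper52.Wq2 Pool.Agent.Helper61.NW
open scoped Nat

universe u

section dih

variable {Γ : Type u} [Group Γ] {ε : Γ →* ℤˣ} {h : Γ → ℤ}

theorem d_one (D : Dh ε h) : h 1 = 0 := by
  have h1 := D.coc 1 1
  rw [mul_one, map_one, Units.val_one, one_mul] at h1
  omega

theorem d_mul_pos (D : Dh ε h) {a : Γ} (ha : ε a = 1) (b : Γ) : h (a * b) = h a + h b := by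
  rw [D.coc, ha, Units.val_one, one_mul]

theorem d_mul_neg (D : Dh ε h) {a : Γ} (ha : ε a = -1) (b : Γ) : h (a * b) = h a - h b := by
  rw [D.coc, ha, Units.val_neg, Units.val_one]
  ring

theorem d_inv_pos (D : Dh ε h) {a : Γ} (ha : ε a = 1) : h a⁻¹ = - h a := by
  have h1 := d_mul_pos D ha a⁻¹
  rw [mul_inv_cancel, d_one D] at h1
  omega

theorem d_inv_neg (D : Dh ε h) {a : Γ} (ha : ε a = -1) : h a⁻¹ = h a := by
  have h1 := d_mul_neg D ha a⁻¹
  rw [mul_inv_cancel, d_one D] at h1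
  omega

theorem u_abs (u : ℤˣ) : |(u : ℤ)| = 1 := by
  rcases Int.units_eq_one_or u with h1 | h1 <;> rw [h1] <;> simp

theorem e_inv (a : Γ) : ε a⁻¹ = ε a := by
  rw [map_inv]
  rcases Int.units_eq_one_or (ε a) with h1 | h1 <;> rw [h1] <;> rfl

/-- the finite kernel -/
def Kr (D : Dh ε h) : Subgroup Γ where
  carrier := {g | ε g = 1 ∧ h g = 0}
  mul_mem' := by
    rintro a b ⟨ha, ha'⟩ ⟨hb, hb'⟩
    refine ⟨by rw [map_mul, ha, hb, one_mul], ?_⟩
    rw [d_mul_pos D ha, ha', hb', add_zero]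
  one_mem' := ⟨map_one ε, d_one D⟩
  inv_mem' := by
    rintro a ⟨ha, ha'⟩
    refine ⟨by rw [e_inv, ha], ?_⟩
    rw [d_inv_pos D ha, ha', neg_zero]

theorem mem_Kr (D : Dh ε h) (g : Γ) : g ∈ Kr D ↔ ε g = 1 ∧ h g = 0 := Iff.rfl

theorem Kr_normal (D : Dh ε h) : (Kr D).Normal := by
  constructor
  rintro k ⟨hk, hk'⟩ g
  rw [mem_Kr]
  rcases Int.units_eq_one_or (ε g) with h1 | h1
  · refine ⟨by rw [map_mul, map_mul, e_inv, h1, hk]; rfl, ?_⟩
    rw [mul_assoc, d_mul_pos D h1, d_mul_pos D hk, hk', d_inv_pos D h1]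
    ring
  · refine ⟨by rw [map_mul, map_mul, e_inv, h1, hk]; rfl, ?_⟩
    rw [mul_assoc, d_mul_neg D h1, d_mul_pos D hk, hk', d_inv_neg D h1]
    ring

theorem Kr_finite (D : Dh ε h) : Finite (Kr D) := D.ker.to_subtype

theorem Kr_card (D : Dh ε h) : Nat.card (Kr D) = Set.ncard {g | ε g = 1 ∧ h g = 0} := rfl

/-- a power commutes with the kernel -/
theorem comm_Kr (D : Dh ε h) (p : Γ) (n : ℕ) (hn : Nat.card (Kr D) ≤ n) (k : Γ)
    (hk : k ∈ Kr D) : p ^ (n !) * k = k * p ^ (n !) := by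
  have := Kr_normal D
  have := Kr_finite D
  set ψ : Γ →* Equiv.Perm (Kr D) := (MulAut.toPerm (Kr D)).comp MulAut.conjNormal with hψ
  have h1 : ψ p ^ ((Nat.card (Kr D)) !) = 1 := by
    have := pow_card_eq_one' (x := ψ p)
    rwa [Nat.card_perm] at this
  have h2 : ψ (p ^ (n !)) = 1 := by
    obtain ⟨c, hc⟩ := Nat.factorial_dvd_factorial hn
    rw [map_pow, hc, pow_mul, h1, one_pow]
  have h3 := congrArg (fun f : Equiv.Perm (Kr D) => ((f ⟨k, hk⟩ : Kr D) : Γ)) h2
  have h4 : p ^ (n !) * k * (p ^ (n !))⁻¹ = k := h3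
  rw [mul_inv_eq_iff_eq_mul] at h4
  exact h4

theorem cen0 (D : Dh ε h) {p : Γ} (hp : ε p = 1) (n : ℕ) (hn : Nat.card (Kr D) ≤ n) (x : Γ)
    (hx : ε x = 1) :
    x * p ^ (n ! * Nat.card (Kr D)) = p ^ (n ! * Nat.card (Kr D)) * x := by
  have := Kr_finite D
  set P : Γ := p ^ (n !) with hP
  have hεP : ε P = 1 := by rw [hP, map_pow, hp, one_pow]
  have hk : x * P * x⁻¹ * P⁻¹ ∈ Kr D := by
    rw [mem_Kr]
    refine ⟨by rw [map_mul, map_mul, map_mul, e_inv, e_inv, hx, hεP]; rfl, ?_⟩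
    rw [mul_assoc, mul_assoc, d_mul_pos D hx, d_mul_pos D hεP,
      d_mul_pos D (show ε x⁻¹ = 1 by rw [e_inv, hx]), d_inv_pos D hx, d_inv_pos D hεP]
    ring
  set κ : Γ := x * P * x⁻¹ * P⁻¹ with hκ
  have h1 : x * P * x⁻¹ = κ * P := by rw [hκ]; group
  have h2 : Commute κ P := (comm_Kr D p n hn κ hk).symm
  have h3 : κ ^ Nat.card (Kr D) = 1 := by
    have := pow_card_eq_one' (x := (⟨κ, hk⟩ : Kr D))
    have h4 : ((⟨κ, hk⟩ : Kr D) ^ Nat.card (Kr D) : Kr D).val = (1 : Kr D).val :=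
      congrArg Subtype.val this
    rwa [Subgroup.coe_pow, Subgroup.coe_one] at h4
  have h4 : x * P ^ Nat.card (Kr D) * x⁻¹ = P ^ Nat.card (Kr D) := by
    rw [← conj_pow, h1, h2.mul_pow, h3, one_mul]
  rw [pow_mul, ← hP]
  rw [mul_inv_eq_iff_eq_mul] at h4
  exact h4

/-- elements of sign `-1` invert a power -/
theorem cen1 (D : Dh ε h) {p : Γ} (hp : ε p = 1) (n : ℕ) (hn : Nat.card (Kr D) ≤ n) (x : Γ)
    (hx : ε x = -1) :
    p ^ (n ! * Nat.card (Kr D) * Nat.card (Kr D)) * x =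
      x * (p ^ (n ! * Nat.card (Kr D) * Nat.card (Kr D)))⁻¹ := by
  have := Kr_finite D
  set P : Γ := p ^ (n ! * Nat.card (Kr D)) with hP
  have hεP : ε P = 1 := by rw [hP, map_pow, hp, one_pow]
  have hk : x⁻¹ * P * x * P ∈ Kr D := by
    rw [mem_Kr]
    refine ⟨by rw [map_mul, map_mul, map_mul, e_inv, hx, hεP]; rfl, ?_⟩
    rw [mul_assoc, mul_assoc, d_mul_neg D (show ε x⁻¹ = -1 by rw [e_inv, hx]), d_mul_pos D hεP,
      d_mul_neg D hx, d_inv_neg D hx]
    ring
  set κ : Γ := x⁻¹ * P * x * P with hκ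
  have h1 : x⁻¹ * P * x = κ * P⁻¹ := by rw [hκ]; group
  have h2 : Commute κ P := cen0 D hp n hn κ ((mem_Kr D κ).1 hk).1
  have h3 : κ ^ Nat.card (Kr D) = 1 := by
    have := pow_card_eq_one' (x := (⟨κ, hk⟩ : Kr D))
    have h4 : ((⟨κ, hk⟩ : Kr D) ^ Nat.card (Kr D) : Kr D).val = (1 : Kr D).val :=
      congrArg Subtype.val this
    rwa [Subgroup.coe_pow, Subgroup.coe_one] at h4
  have h4 : x⁻¹ * P ^ Nat.card (Kr D) * x = (P ^ Nat.card (Kr D))⁻¹ := by
    have h5 := conj_pow (i := Nat.card (Kr D)) (a := x⁻¹) (b := P)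
    rw [inv_inv] at h5
    rw [← h5, h1, h2.inv_right.mul_pow, h3, one_mul, inv_pow]
  rw [pow_mul, ← hP, ← h4]
  group

/-- level sets are finite -/
theorem lev (D : Dh ε h) (σ : ℤˣ) (v : ℤ) : {g | ε g = σ ∧ h g = v}.Finite := by
  rcases Set.eq_empty_or_nonempty {g | ε g = σ ∧ h g = v} with h0 | ⟨g₀, h1, h2⟩
  · rw [h0]
    exact Set.finite_empty
  · refine (D.ker.image (fun g => g₀ * g)).subset ?_
    rintro g ⟨h3, h4⟩
    refine ⟨g₀⁻¹ * g, ⟨?_, ?_⟩, by simp⟩
    · rw [map_mul, e_inv, h1, h3]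
      rcases Int.units_eq_one_or σ with h5 | h5 <;> rw [h5] <;> rfl
    · rcases Int.units_eq_one_or σ with h5 | h5
      · rw [d_mul_pos D (by rw [e_inv, h1, h5]), d_inv_pos D (by rw [h1, h5])]
        omega
      · rw [d_mul_neg D (by rw [e_inv, h1, h5]), d_inv_neg D (by rw [h1, h5])]
        omega

/-- the height -/
def Xh (ε : Γ →* ℤˣ) (h : Γ → ℤ) (y : ℤ) (g : Γ) : ℤ := 4 * h g + (ε g : ℤ) * y

theorem Xh_mul (D : Dh ε h) (y : ℤ) (g t : Γ) :
    Xh ε h y (g * t) = Xh ε h y g + (ε g : ℤ) * (Xh ε h y t - y) := by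
  unfold Xh
  rw [D.coc, map_mul, Units.val_mul]
  ring

theorem Xh_fin (D : Dh ε h) (y H : ℤ) : {g | 0 ≤ Xh ε h y g ∧ Xh ε h y g < H}.Finite := by
  have h1 : (⋃ v ∈ Set.Icc (-(|y| + |H|)) (|y| + |H|), ({g | ε g = 1 ∧ h g = v} ∪
      {g | ε g = -1 ∧ h g = v})).Finite :=
    Set.Finite.biUnion (Set.finite_Icc _ _) (fun v _ => (lev D 1 v).union (lev D (-1) v))
  refine h1.subset ?_
  rintro g ⟨h2, h3⟩
  unfold Xh at h2 h3
  have hy1 := neg_abs_le y
  have hy2 := le_abs_self y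
  have hH := le_abs_self H
  have hH' := abs_nonneg H
  rw [Set.mem_iUnion₂]
  rcases Int.units_eq_one_or (ε g) with h5 | h5
  · rw [h5, Units.val_one] at h2 h3
    exact ⟨h g, ⟨by omega, by omega⟩, Or.inl ⟨h5, rfl⟩⟩
  · rw [h5, Units.val_neg, Units.val_one] at h2 h3
    exact ⟨h g, ⟨by omega, by omega⟩, Or.inr ⟨h5, rfl⟩⟩

theorem phz {X : Γ → ℤ} {H : ℤ} {ρ : Equiv.Perm Γ} (hρ : ∀ g, X (ρ g) = X g + H) (k : ℤ)
    (g : Γ) : X ((ρ ^ k) g) = X g + k * H := by
  induction k using Int.induction_on with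
  | zero => simp
  | succ i ih =>
    rw [add_comm (i : ℤ) 1, zpow_add, zpow_one, Equiv.Perm.mul_apply, hρ, ih]; ring
  | pred i ih =>
    have h1 : (ρ ^ (-(i : ℤ))) g = ρ ((ρ ^ (-(i : ℤ) - 1)) g) := by
      rw [← Equiv.Perm.mul_apply, ← zpow_one_add]; congr 2; ring
    rw [h1, hρ] at ih
    linarith

theorem Kr_le (D : Dh ε h) (y H : ℤ) (hH : 0 < H) (ρ : Equiv.Perm Γ)
    (hρ : ∀ g, Xh ε h y (ρ g) = Xh ε h y g + H) :
    Nat.card (Kr D) ≤ Set.ncard {g | 0 ≤ Xh ε h y g ∧ Xh ε h y g < H} := by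
  rw [Kr_card]
  refine Set.ncard_le_ncard_of_injOn (fun g => (ρ ^ (-(y / H))) g) ?_ ?_ (Xh_fin D y H)
  · rintro g ⟨h1, h2⟩
    have h3 := phz hρ (-(y / H)) g
    have h4 : Xh ε h y g = y := by
      unfold Xh
      rw [h1, h2, Units.val_one]
      ring
    have h5 := Int.emod_nonneg y hH.ne'
    have h6 := Int.emod_lt_of_pos y hH
    have h7 := Int.emod_add_mul_ediv y H
    have h8 : -(y / H) * H = -(H * (y / H)) := by ring
    show 0 ≤ Xh ε h y ((ρ ^ (-(y / H))) g) ∧ Xh ε h y ((ρ ^ (-(y / H))) g) < H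
    rw [h3, h4, h8]
    constructor <;> omega
  · intro a _ b _ hab
    exact (ρ ^ (-(y / H))).injective hab

/-- case 1: a translation of maximal height -/
theorem case1 (D : Dh ε h) {S : Set Γ} (hS : IsGen S) (y : ℤ) {s : Γ} (hs : s ∈ S)
    (hε : ε s = 1) (hpos : 0 < h s) (hmax : ∀ u ∈ S, |Xh ε h y u - y| ≤ 4 * h s) :
    ∃ (n m : ℕ) (G : SimpleGraph (ℤ × Fin n)), m ≤ 2 * (n ! * (n * n)) ∧
    Lsys n m G ∧ Nonempty (cay S ≃g G) := by
  have := Kr_finite D
  set H : ℤ := 4 * h s with hHdef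
  have hH : 0 < H := by omega
  have hez : ∀ (g : Γ) (i : ℤ), ε (g * s ^ i) = ε g := by
    intro g i
    rw [map_mul, map_zpow, hε, one_zpow, mul_one]
  let ρ : Equiv.Perm Γ :=
    { toFun := fun g => g * s ^ (ε g : ℤ)
      invFun := fun g => g * s ^ (-(ε g : ℤ))
      left_inv := by
        intro g
        simp only
        rw [hez, mul_assoc, ← zpow_add, add_neg_cancel, zpow_zero, mul_one]
      right_inv := by
        intro g
        simp only
        rw [hez, mul_assoc, ← zpow_add, neg_add_cancel, zpow_zero, mul_one] }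
  have ρa : ∀ g, ρ g = g * s ^ (ε g : ℤ) := fun g => rfl
  have Xs : Xh ε h y s - y = H := by
    unfold Xh
    rw [hε, Units.val_one]
    ring
  have Xs' : Xh ε h y s⁻¹ - y = -H := by
    unfold Xh
    rw [e_inv, hε, Units.val_one, d_inv_pos D hε]
    ring
  have hρ : ∀ g, Xh ε h y (ρ g) = Xh ε h y g + H := by
    intro g
    rw [ρa]
    rcases Int.units_eq_one_or (ε g) with h5 | h5
    · rw [h5, Units.val_one, zpow_one, Xh_mul D, h5, Units.val_one, Xs, one_mul]
    · rw [h5, Units.val_neg, Units.val_one, zpow_neg_one, Xh_mul D, h5, Units.val_neg,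
        Units.val_one, Xs']
      ring
  have hadj : ∀ g, (cay S).Adj g (ρ g) := by
    intro g
    rw [ρa]
    rcases Int.units_eq_one_or (ε g) with h5 | h5
    · rw [h5, Units.val_one, zpow_one]
      exact cay_adj_mul hS g hs
    · rw [h5, Units.val_neg, Units.val_one, zpow_neg_one]
      exact cay_adj_mul hS g (hS.2.1 _ hs)
  have hnear : ∀ g, ∀ u ∈ S, |Xh ε h y (g * u) - Xh ε h y g| ≤ H := by
    intro g u hu
    have h1 : Xh ε h y (g * u) - Xh ε h y g = (ε g : ℤ) * (Xh ε h y u - y) := by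
      rw [Xh_mul D]; ring
    rw [h1, abs_mul, u_abs, one_mul]
    exact hmax u hu
  have hfin := Xh_fin D y H
  have hK := Kr_le D y H hH ρ hρ
  set n : ℕ := Set.ncard {g | 0 ≤ Xh ε h y g ∧ Xh ε h y g < H} with hn
  have hKpos : 0 < Nat.card (Kr D) := Nat.card_pos
  set m : ℕ := n ! * Nat.card (Kr D) * Nat.card (Kr D) with hm
  have hmpos : 0 < m := by
    have := Nat.factorial_pos n
    positivity
  have ρpow : ∀ (k : ℕ) (g : Γ), (ρ ^ k) g = g * s ^ ((k : ℤ) * (ε g : ℤ)) := by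
    intro k g
    induction k with
    | zero => simp
    | succ k ih =>
      rw [pow_succ', Equiv.Perm.mul_apply, ih, ρa, hez, mul_assoc, ← zpow_add]
      congr 2
      push_cast
      ring
  have hc : ∀ g, s ^ m * g = (ρ ^ m) g := by
    intro g
    rw [ρpow]
    rcases Int.units_eq_one_or (ε g) with h5 | h5
    · rw [h5, Units.val_one, mul_one, zpow_natCast]
      have h6 : Commute g (s ^ (n ! * Nat.card (Kr D))) := cen0 D hε n hK g h5
      have h7 := h6.pow_right (Nat.card (Kr D))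
      rw [← pow_mul] at h7
      exact h7.symm
    · rw [h5, Units.val_neg, Units.val_one, mul_neg, mul_one, zpow_neg, zpow_natCast]
      exact cen1 D hε n hK g h5
  have htr : ∀ g g' : Γ, ∃ (x : Γ) (e k : ℤ), (e = 1 ∨ e = -1) ∧ x * g = (ρ ^ k) g' ∧
      ∀ y, x * ρ y = (ρ ^ e) (x * y) := by
    intro g g'
    refine ⟨g' * g⁻¹, (ε (g' * g⁻¹) : ℤ), 0, ?_, by simp, ?_⟩
    · rcases Int.units_eq_one_or (ε (g' * g⁻¹)) with h5 | h5 <;> rw [h5] <;> simp
    · intro z
      set x : Γ := g' * g⁻¹ with hx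
      rcases Int.units_eq_one_or (ε x) with h5 | h5
      · rw [h5, Units.val_one, zpow_one, ρa, ρa, map_mul, h5, one_mul]
        exact (mul_assoc _ _ _).symm
      · rw [h5, Units.val_neg, Units.val_one, zpow_neg_one, Equiv.Perm.eq_inv_iff_eq]
        rw [ρa, ρa, map_mul, hez, h5, ← mul_assoc, mul_assoc (x * z), ← zpow_add, neg_one_mul,
          Units.val_neg, add_neg_cancel, zpow_zero, mul_one]
  obtain ⟨G, hG1, hG2⟩ := Pool.Agent.Helper71.NW.lsys_of hS (Xh ε h y) H hH ρ hρ hadj hnear hfin m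
    hmpos (s ^ m) hc htr
  refine ⟨n, m, G, ?_, hG1, hG2⟩
  have h9 : n ! * Nat.card (Kr D) * Nat.card (Kr D) ≤ n ! * n * n :=
    Nat.mul_le_mul (Nat.mul_le_mul (le_refl _) hK) hK
  have h10 : n ! * n * n = n ! * (n * n) := by ring
  omega

/-- case 2: reflections -/
theorem case2 (D : Dh ε h) {S : Set Γ} (hS : IsGen S) (y H : ℤ) (hH : 0 < H) {t r : Γ}
    (ht : t ∈ S) (hr : r ∈ S) (hεt : ε t = -1) (hεr : ε r = -1) (Xt : Xh ε h y t - y = H)
    (Xr : Xh ε h y r - y = -H) (hmax : ∀ u ∈ S, |Xh ε h y u - y| ≤ H) :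
    ∃ (n m : ℕ) (G : SimpleGraph (ℤ × Fin n)), m ≤ 2 * (n ! * (n * n)) ∧
    Lsys n m G ∧ Nonempty (cay S ≃g G) := by
  have := Kr_finite D
  have h11 : ((-1 : ℤˣ)) ≠ 1 := by decide
  have nn : (-1 : ℤˣ) * -1 = 1 := by decide
  let ρ : Equiv.Perm Γ :=
    { toFun := fun g => if ε g = 1 then g * t else g * r
      invFun := fun g => if ε g = 1 then g * r⁻¹ else g * t⁻¹
      left_inv := by
        intro g
        simp only
        rcases Int.units_eq_one_or (ε g) with h5 | h5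
        · rw [if_pos h5, map_mul, h5, hεt, one_mul, if_neg h11, mul_inv_cancel_right]
        · rw [h5, if_neg h11, map_mul, h5, hεr, nn, if_pos rfl, mul_inv_cancel_right]
      right_inv := by
        intro g
        simp only
        rcases Int.units_eq_one_or (ε g) with h5 | h5
        · rw [if_pos h5, map_mul, e_inv, h5, hεr, one_mul, if_neg h11, inv_mul_cancel_right]
        · rw [h5, if_neg h11, map_mul, e_inv, h5, hεt, nn, if_pos rfl, inv_mul_cancel_right] }
  have ρp : ∀ g, ε g = 1 → ρ g = g * t := fun g hg => if_pos hg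
  have ρm : ∀ g, ε g = -1 → ρ g = g * r := by
    intro g hg
    show (if ε g = 1 then g * t else g * r) = g * r
    rw [hg, if_neg h11]
  have eρ : ∀ g, ε (ρ g) = - ε g := by
    intro g
    rcases Int.units_eq_one_or (ε g) with h5 | h5
    · rw [ρp g h5, map_mul, h5, hεt, one_mul]
    · rw [ρm g h5, map_mul, h5, hεr]
      rfl
  have hρ : ∀ g, Xh ε h y (ρ g) = Xh ε h y g + H := by
    intro g
    rcases Int.units_eq_one_or (ε g) with h5 | h5
    · rw [ρp g h5, Xh_mul D, h5, Units.val_one, Xt, one_mul]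
    · rw [ρm g h5, Xh_mul D, h5, Units.val_neg, Units.val_one, Xr]
      ring
  have hadj : ∀ g, (cay S).Adj g (ρ g) := by
    intro g
    rcases Int.units_eq_one_or (ε g) with h5 | h5
    · rw [ρp g h5]
      exact cay_adj_mul hS g ht
    · rw [ρm g h5]
      exact cay_adj_mul hS g hr
  have hnear : ∀ g, ∀ u ∈ S, |Xh ε h y (g * u) - Xh ε h y g| ≤ H := by
    intro g u hu
    have h1 : Xh ε h y (g * u) - Xh ε h y g = (ε g : ℤ) * (Xh ε h y u - y) := by
      rw [Xh_mul D]; ring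
    rw [h1, abs_mul, u_abs, one_mul]
    exact hmax u hu
  have hfin := Xh_fin D y H
  have hK := Kr_le D y H hH ρ hρ
  set n : ℕ := Set.ncard {g | 0 ≤ Xh ε h y g ∧ Xh ε h y g < H} with hn
  have hKpos : 0 < Nat.card (Kr D) := Nat.card_pos
  set M : ℕ := n ! * Nat.card (Kr D) with hM
  have hMpos : 0 < M := by
    have := Nat.factorial_pos n
    positivity
  have hεtr : ε (t * r) = 1 := by rw [map_mul, hεt, hεr]; rfl
  have hεrt : ε (r * t) = 1 := by rw [map_mul, hεt, hεr]; rfl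
  have ρ2p : ∀ (k : ℕ) (g : Γ), ε g = 1 → (ρ ^ (2 * k)) g = g * (t * r) ^ k := by
    intro k g hg
    induction k with
    | zero => simp
    | succ k ih =>
      have e1 : 2 * (k + 1) = 1 + (1 + 2 * k) := by ring
      rw [e1, pow_add, pow_add, pow_one, Equiv.Perm.mul_apply, Equiv.Perm.mul_apply, ih]
      have h1 : ε (g * (t * r) ^ k) = 1 := by rw [map_mul, map_pow, hεtr, one_pow, mul_one, hg]
      rw [ρp _ h1, ρm _ (by rw [map_mul, h1, hεt, one_mul]), pow_succ]
      group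
  have ρ2m : ∀ (k : ℕ) (g : Γ), ε g = -1 → (ρ ^ (2 * k)) g = g * (r * t) ^ k := by
    intro k g hg
    induction k with
    | zero => simp
    | succ k ih =>
      have e1 : 2 * (k + 1) = 1 + (1 + 2 * k) := by ring
      rw [e1, pow_add, pow_add, pow_one, Equiv.Perm.mul_apply, Equiv.Perm.mul_apply, ih]
      have h1 : ε (g * (r * t) ^ k) = -1 := by rw [map_mul, map_pow, hεrt, one_pow, mul_one, hg]
      rw [ρm _ h1, ρp _ (by rw [map_mul, h1, hεr]; rfl), pow_succ]
      group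
  have hc : ∀ g, (t * r) ^ M * g = (ρ ^ (2 * M)) g := by
    intro g
    rcases Int.units_eq_one_or (ε g) with h5 | h5
    · rw [ρ2p M g h5]
      exact (cen0 D hεtr n hK g h5).symm
    · rw [ρ2m M g h5]
      have h6 : ε (g * t⁻¹) = 1 := by rw [map_mul, e_inv, h5, hεt]; rfl
      have h7 := cen0 D hεtr n hK (g * t⁻¹) h6
      rw [← hM] at h7
      have h8 : SemiconjBy t (r * t) (t * r) := by
        show t * (r * t) = t * r * t
        rw [mul_assoc]
      have h9 : t * (r * t) ^ M = (t * r) ^ M * t := h8.pow_right M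
      calc (t * r) ^ M * g = ((t * r) ^ M * (g * t⁻¹)) * t := by group
        _ = ((g * t⁻¹) * (t * r) ^ M) * t := by rw [h7]
        _ = (g * t⁻¹) * ((t * r) ^ M * t) := by rw [mul_assoc]
        _ = (g * t⁻¹) * (t * (r * t) ^ M) := by rw [h9]
        _ = g * (r * t) ^ M := by rw [← mul_assoc, inv_mul_cancel_right]
  have xρ : ∀ x, ε x = 1 → ∀ z, x * ρ z = (ρ ^ (1 : ℤ)) (x * z) := by
    intro x hx z
    rw [zpow_one]
    rcases Int.units_eq_one_or (ε z) with h5 | h5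
    · rw [ρp z h5, ρp (x * z) (by rw [map_mul, hx, h5, one_mul]), mul_assoc]
    · rw [ρm z h5, ρm (x * z) (by rw [map_mul, hx, h5, one_mul]), mul_assoc]
  have htr : ∀ g g' : Γ, ∃ (x : Γ) (e k : ℤ), (e = 1 ∨ e = -1) ∧ x * g = (ρ ^ k) g' ∧
      ∀ y, x * ρ y = (ρ ^ e) (x * y) := by
    intro g g'
    by_cases hgg : ε g = ε g'
    · refine ⟨g' * g⁻¹, 1, 0, Or.inl rfl, by simp, xρ _ ?_⟩
      rw [map_mul, e_inv, hgg]
      rcases Int.units_eq_one_or (ε g') with h5 | h5 <;> rw [h5] <;> rfl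
    · refine ⟨ρ g' * g⁻¹, 1, 1, Or.inl rfl, by simp, xρ _ ?_⟩
      rw [map_mul, e_inv, eρ]
      rcases Int.units_eq_one_or (ε g) with h5 | h5 <;>
        rcases Int.units_eq_one_or (ε g') with h6 | h6
      · exact absurd (h5.trans h6.symm) hgg
      · rw [h5, h6]; rfl
      · rw [h5, h6]; rfl
      · exact absurd (h5.trans h6.symm) hgg
  obtain ⟨G, hG1, hG2⟩ := Pool.Agent.Helper71.NW.lsys_of hS (Xh ε h y) H hH ρ hρ hadj hnear hfin
    (2 * M) (by omega) ((t * r) ^ M) hc htr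
  refine ⟨n, 2 * M, G, ?_, hG1, hG2⟩
  have hn1 : 1 ≤ n := le_trans hKpos hK
  have h9 : n ! * Nat.card (Kr D) ≤ n ! * (n * n) :=
    Nat.mul_le_mul (le_refl _) (le_trans hK (Nat.le_mul_of_pos_left n hn1))
  omega

end dih

theorem dih : DihStmt.{u} := by
  intro Γ _ ε h S D hS hfin
  -- there are reflections in `S`
  obtain ⟨u₀, hu₀, hεu₀⟩ : ∃ u ∈ S, ε u = -1 := by
    by_contra hno
    push Not at hno
    obtain ⟨u, hu⟩ := D.neg
    have h1 : Subgroup.closure S ≤ ε.ker := by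
      rw [Subgroup.closure_le]
      intro v hv
      rcases Int.units_eq_one_or (ε v) with h5 | h5
      · exact h5
      · exact absurd h5 (hno v hv)
    rw [hS.1] at h1
    have h2 : ε u = 1 := h1 (Subgroup.mem_top u)
    rw [hu] at h2
    exact absurd h2 (by decide)
  set R : Set Γ := {u ∈ S | ε u = -1} with hR
  have hRfin : R.Finite := hfin.subset (fun u hu => hu.1)
  have hRne : R.Nonempty := ⟨u₀, hu₀, hεu₀⟩
  obtain ⟨t, ⟨ht, hεt⟩, htmax⟩ := Set.exists_max_image R h hRfin hRne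
  obtain ⟨r, ⟨hr, hεr⟩, hrmin⟩ := Set.exists_min_image R h hRfin hRne
  set y : ℤ := h t + h r with hy
  have Xneg : ∀ u, ε u = -1 → Xh ε h y u - y = 4 * h u - 2 * y := by
    intro u hu
    unfold Xh
    rw [hu, Units.val_neg, Units.val_one]
    ring
  have Xpos : ∀ u, ε u = 1 → Xh ε h y u - y = 4 * h u := by
    intro u hu
    unfold Xh
    rw [hu, Units.val_one]
    ring
  obtain ⟨w, hw, hwmax⟩ := Set.exists_max_image S (fun u => |Xh ε h y u - y|) hfin ⟨u₀, hu₀⟩
  have hpos : 0 < |Xh ε h y w - y| := by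
    rcases (abs_nonneg (Xh ε h y w - y)).lt_or_eq with h1 | h1
    · exact h1
    · exfalso
      obtain ⟨g, hg1, hg2⟩ := D.unb
      have h2 : ∀ u ∈ S, Xh ε h y u - y = 0 := by
        intro u hu
        have h3 := hwmax u hu
        rw [← h1] at h3
        exact abs_nonpos_iff.1 h3
      have h3 : ∀ g ∈ Subgroup.closure S, Xh ε h y g - y = 0 := by
        intro g hg
        induction hg using Subgroup.closure_induction with
        | mem u hu => exact h2 u hu
        | one =>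
          rw [Xpos 1 (map_one ε), d_one D, mul_zero]
        | mul a b _ _ ha hb =>
          rw [Xh_mul D, hb, mul_zero, add_zero, ha]
        | inv a _ ha =>
          rcases Int.units_eq_one_or (ε a) with h5 | h5
          · rw [Xpos _ (by rw [e_inv, h5]), d_inv_pos D h5]
            rw [Xpos a h5] at ha
            omega
          · rw [Xneg _ (by rw [e_inv, h5]), d_inv_neg D h5]
            rw [Xneg a h5] at ha
            omega
      have h4 := h3 g (by rw [hS.1]; exact Subgroup.mem_top g)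
      rw [Xpos g hg1] at h4
      omega
  rcases Int.units_eq_one_or (ε w) with h5 | h5
  · have h6 := Xpos w h5
    rcases lt_trichotomy (h w) 0 with h7 | h7 | h7
    · refine case1 D hS y (s := w⁻¹) (hS.2.1 w hw) (by rw [e_inv, h5])
        (by rw [d_inv_pos D h5]; omega) ?_
      intro u hu
      refine (hwmax u hu).trans ?_
      rw [h6, d_inv_pos D h5, abs_of_neg (by omega)]
      omega
    · rw [h6, h7] at hpos
      simp at hpos
    · refine case1 D hS y hw h5 h7 ?_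
      intro u hu
      refine (hwmax u hu).trans ?_
      rw [h6, abs_of_pos (by omega)]
  · have h6 := Xneg w h5
    have h7 := htmax w ⟨hw, h5⟩
    have h8 := hrmin w ⟨hw, h5⟩
    have h9 : Xh ε h y t - y = 2 * (h t - h r) := by rw [Xneg t hεt, hy]; ring
    have h10 : Xh ε h y r - y = -(2 * (h t - h r)) := by rw [Xneg r hεr, hy]; ring
    have h11 : |Xh ε h y w - y| ≤ 2 * (h t - h r) := by
      rw [h6, abs_le]
      constructor <;> omega
    exact case2 D hS y (2 * (h t - h r)) (by omega) ht hr hεt hεr h9 h10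
      (fun u hu => (hwmax u hu).trans h11)

end Pool.Agent.Helper53.NW
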