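import Pool.Agent.Helper53.NW.CYN

/-!
# Project NW, packet CRX, part 1: strands
-/

set_option autoImplicit false

namespace Pool.Agent.Helper53.NW

open Pool.Agent.Helper52.Wq2 Pool.Agent.Helper61.NW

section strands

variable {J ι : Type*} {G : SimpleGraph (ℤ × J)} {m : ℕ}

/-- shift -/
def shf {J : Type*} (c : ℤ) (p : ℤ × J) : ℤ × J := (p.1 + c, p.2)

/-- the strands can pass from the state `σ` to the state `τ` -/
def Tr (G : SimpleGraph (ℤ × J)) (m : ℕ) (σ τ : Option ι → J) (A : Set ι) : Prop :=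
  ∃ T : ℕ, 0 < T ∧ ∃ B : Option ι → Set (ℤ × J), (∀ v, Conn G (B v)) ∧
    (∀ v w x, x ∈ B v → x ∈ B w → v = w) ∧ (∀ v, ∀ p ∈ B v, 0 ≤ p.1 ∧ p.1 < (m : ℤ) * T) ∧
    (∀ v, ((0 : ℤ), σ v) ∈ B v) ∧ (∀ v, ((m : ℤ) * T - 1, τ v) ∈ B v) ∧
    ∀ i ∈ A, ∃ a ∈ B none, ∃ b ∈ B (some i), G.Adj a b

/-- the hypotheses on the graph -/
structure Ly (G : SimpleGraph (ℤ × J)) (m : ℕ) : Prop where
  mpos : 0 < m
  up : ∀ x j, G.Adj (x, j) (x + 1, j)
  sh : ∀ (c x : ℤ) (j : J) (y : ℤ) (k : J), G.Adj (x, j) (y, k) →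
    G.Adj (x + m * c, j) (y + m * c, k)

theorem Ly.conn_sh (h : Ly G m) {B : Set (ℤ × J)} (hB : Conn G B) (c : ℤ) :
    Conn G (shf ((m : ℤ) * c) '' B) := by
  refine hB.image _ ?_
  rintro ⟨x, j⟩ _ ⟨y, k⟩ _ hab
  exact Or.inr (h.sh c x j y k hab)

theorem Ly.seg (h : Ly G m) (j : J) (a b : ℤ) (hab : a ≤ b) :
    Conn G {p : ℤ × J | p.2 = j ∧ a ≤ p.1 ∧ p.1 ≤ b} := by
  have hset : {p : ℤ × J | p.2 = j ∧ a ≤ p.1 ∧ p.1 ≤ b} =
      {v : ℤ × J | ∃ x : ℤ, (a ≤ x ∧ x ≤ b) ∧ ((x, j) : ℤ × J) = v} := by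
    ext ⟨x, k⟩
    constructor
    · rintro ⟨h1, h2, h3⟩
      exact ⟨x, ⟨h2, h3⟩, by rw [← h1]⟩
    · rintro ⟨y, ⟨h2, h3⟩, h4⟩
      obtain ⟨rfl, rfl⟩ := Prod.mk.inj h4
      exact ⟨rfl, h2, h3⟩
  rw [hset]
  refine conn_line (fun x => ((x, j) : ℤ × J)) _ a ⟨le_refl _, hab⟩ ?_ ?_ ?_
  · intro x hx hP
    constructor <;> omega
  · intro x hx hP
    constructor <;> omega
  · intro x _ _
    exact h.up x j

/-- the basic move: all strands run up to the height `x` and go on from the height `c v` -/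
theorem Ly.move (h : Ly G m) (σ τ : Option ι → J) (A : Set ι) (x : ℤ) (c : Option ι → ℤ)
    (h1 : ∀ v, G.Adj (x, σ v) (c v, τ v)) (h2 : ∀ v, x - 1 ≤ c v ∧ c v ≤ x + 1)
    (h3 : ∀ v w, v ≠ w → σ v = τ w → x < c w) (hσ : Function.Injective σ)
    (hτ : Function.Injective τ) (h5 : ∀ i ∈ A, τ (some i) = σ none ∧ c (some i) = x + 1) :
    Tr G m σ τ A := by
  have hm : (0 : ℤ) < m := by exact_mod_cast h.mpos
  obtain ⟨d, hd1, hd2⟩ : ∃ d : ℤ, 1 ≤ x + m * d ∧ x + m * d ≤ m := by
    refine ⟨-((x - 1) / m), ?_, ?_⟩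
    · have e1 := Int.emod_nonneg (x - 1) hm.ne'
      have e3 := Int.emod_add_mul_ediv (x - 1) m
      have e4 : (m : ℤ) * -((x - 1) / m) = -((m : ℤ) * ((x - 1) / m)) := by ring
      omega
    · have e1 := Int.emod_lt_of_pos (x - 1) hm
      have e3 := Int.emod_add_mul_ediv (x - 1) m
      have e4 : (m : ℤ) * -((x - 1) / m) = -((m : ℤ) * ((x - 1) / m)) := by ring
      omega
  set y : ℤ := x + m * d with hy
  refine ⟨4, by norm_num, fun v => {p : ℤ × J | p.2 = σ v ∧ 0 ≤ p.1 ∧ p.1 ≤ y} ∪
    {p : ℤ × J | p.2 = τ v ∧ c v + m * d ≤ p.1 ∧ p.1 ≤ (m : ℤ) * 4 - 1}, ?_, ?_, ?_, ?_, ?_, ?_⟩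
  · intro v
    have h6 := h2 v
    refine (h.seg (σ v) 0 y (by omega)).union
      (h.seg (τ v) (c v + m * d) ((m : ℤ) * 4 - 1) (by omega))
      (a := (y, σ v)) (b := (c v + m * d, τ v)) ?_ ?_ ?_
    · exact ⟨rfl, by omega, le_refl _⟩
    · exact ⟨rfl, le_refl _, by omega⟩
    · exact h.sh d _ _ _ _ (h1 v)
  · rintro v w ⟨z, j⟩ hv hw
    by_contra hvw
    rcases hv with ⟨a1, a2, a3⟩ | ⟨a1, a2, a3⟩ <;> rcases hw with ⟨b1, b2, b3⟩ | ⟨b1, b2, b3⟩
    · exact hvw (hσ (a1.symm.trans b1))
    · have := h3 v w hvw (a1.symm.trans b1)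
      simp only at a3 b2
      omega
    · have := h3 w v (fun h' => hvw h'.symm) (b1.symm.trans a1)
      simp only at b3 a2
      omega
    · exact hvw (hτ (a1.symm.trans b1))
  · rintro v p (⟨a1, a2, a3⟩ | ⟨a1, a2, a3⟩)
    · push_cast
      constructor <;> omega
    · have h6 := h2 v
      push_cast
      constructor <;> omega
  · intro v
    left
    refine ⟨rfl, le_refl _, ?_⟩
    show (0 : ℤ) ≤ y
    omega
  · intro v
    have h6 := h2 v
    right
    refine ⟨rfl, ?_, ?_⟩
    · show c v + m * d ≤ (m : ℤ) * ((4 : ℕ) : ℤ) - 1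
      push_cast
      omega
    · show (m : ℤ) * ((4 : ℕ) : ℤ) - 1 ≤ (m : ℤ) * 4 - 1
      push_cast
      omega
  · intro i hi
    obtain ⟨e1, e2⟩ := h5 i hi
    refine ⟨(y, σ none), Or.inl ⟨rfl, ?_, ?_⟩, (y + 1, σ none), Or.inr ⟨?_, ?_, ?_⟩, h.up _ _⟩
    · show (0 : ℤ) ≤ y
      omega
    · exact le_refl _
    · exact e1.symm
    · show c (some i) + m * d ≤ y + 1
      omega
    · show y + 1 ≤ (m : ℤ) * 4 - 1
      omega

/-- composition -/
theorem Ly.comp (h : Ly G m) {σ τ ρ : Option ι → J} {A A' : Set ι} (h1 : Tr G m σ τ A)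
    (h2 : Tr G m τ ρ A') : Tr G m σ ρ (A ∪ A') := by
  obtain ⟨T, hT, B, c1, d1, b1, l1, u1, a1⟩ := h1
  obtain ⟨T', hT', B', c2, d2, b2, l2, u2, a2⟩ := h2
  have hm : (0 : ℤ) < m := by exact_mod_cast h.mpos
  have hp : (0 : ℤ) ≤ (m : ℤ) * T := by positivity
  have hp' : (0 : ℤ) ≤ (m : ℤ) * T' := by positivity
  refine ⟨T + T', by omega, fun v => B v ∪ shf ((m : ℤ) * T) '' B' v, ?_, ?_, ?_, ?_, ?_, ?_⟩
  · intro v
    refine (c1 v).union (h.conn_sh (c2 v) T) (u1 v) ⟨_, l2 v, rfl⟩ ?_
    have := h.up ((m : ℤ) * T - 1) (τ v)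
    rw [sub_add_cancel] at this
    show G.Adj _ ((0 : ℤ) + (m : ℤ) * T, τ v)
    rwa [zero_add]
  · rintro v w x (hv | ⟨p, hv, rfl⟩) (hw | ⟨p', hw, hpp⟩)
    · exact d1 v w x hv hw
    · exfalso
      have e1 := b1 v x hv
      have e2 := b2 w p' hw
      rw [← hpp] at e1
      simp only [shf] at e1
      omega
    · exfalso
      have e1 := b1 w _ hw
      have e2 := b2 v p hv
      simp only [shf] at e1
      omega
    · have e : p' = p := by
        have e1 := congrArg Prod.fst hpp
        have e2 := congrArg Prod.snd hpp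
        simp only [shf] at e1 e2
        exact Prod.ext (by omega) e2
      subst e
      exact d2 v w p' hv hw
  · rintro v x (hv | ⟨p, hv, rfl⟩)
    · have e1 := b1 v x hv
      push_cast
      rw [mul_add]
      constructor <;> omega
    · have e1 := b2 v p hv
      simp only [shf]
      push_cast
      rw [mul_add]
      constructor <;> omega
  · intro v
    exact Or.inl (l1 v)
  · intro v
    refine Or.inr ⟨_, u2 v, ?_⟩
    simp only [shf]
    refine Prod.ext ?_ rfl
    simp only
    push_cast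
    ring
  · rintro i (hi | hi)
    · obtain ⟨a, ha, b, hb, hab⟩ := a1 i hi
      exact ⟨a, Or.inl ha, b, Or.inl hb, hab⟩
    · obtain ⟨⟨x, j⟩, ha, ⟨y, k⟩, hb, hab⟩ := a2 i hi
      exact ⟨_, Or.inr ⟨_, ha, rfl⟩, _, Or.inr ⟨_, hb, rfl⟩, h.sh T x j y k hab⟩

/-- a closed transition in which the centre meets all the leaves gives a star minor -/
theorem Ly.star (h : Ly G m) {σ : Option ι → J} (h1 : Tr G m σ σ Set.univ) : Mn (StarZ ι) G := by
  obtain ⟨T, hT, B, c1, d1, b1, l1, u1, a1⟩ := h1
  have hm : (0 : ℤ) < m := by exact_mod_cast h.mpos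
  have hT' : (0 : ℤ) < T := by exact_mod_cast hT
  have hp : (0 : ℤ) < (m : ℤ) * T := by positivity
  have up : ∀ (x : ℤ) (v : Option ι), ∃ a ∈ shf ((m : ℤ) * (T * x)) '' B v,
      ∃ b ∈ shf ((m : ℤ) * (T * (x + 1))) '' B v, G.Adj a b := by
    intro x v
    refine ⟨_, ⟨_, u1 v, rfl⟩, _, ⟨_, l1 v, rfl⟩, ?_⟩
    have e : shf ((m : ℤ) * (T * (x + 1))) ((0 : ℤ), σ v) =
        ((m : ℤ) * T - 1 + (m : ℤ) * (T * x) + 1, σ v) := by
      simp only [shf]
      refine Prod.ext ?_ rfl
      simp only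
      ring
    rw [e]
    exact h.up _ _
  have sp : ∀ (x : ℤ) (i : ι), ∃ a ∈ shf ((m : ℤ) * (T * x)) '' B none,
      ∃ b ∈ shf ((m : ℤ) * (T * x)) '' B (some i), G.Adj a b := by
    intro x i
    obtain ⟨⟨y, j⟩, ha, ⟨z, k⟩, hb, hab⟩ := a1 i trivial
    exact ⟨_, ⟨_, ha, rfl⟩, _, ⟨_, hb, rfl⟩, h.sh (T * x) y j z k hab⟩
  refine ⟨fun p => shf ((m : ℤ) * (T * p.1)) '' B p.2, fun p => h.conn_sh (c1 _) _, ?_, ?_⟩
  · rintro ⟨x, v⟩ ⟨y, w⟩ _ ⟨p, hp1, rfl⟩ ⟨p', hp2, hpp⟩
    simp only at hp1 hp2 hpp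
    have e1 := congrArg Prod.fst hpp
    have e2 := congrArg Prod.snd hpp
    simp only [shf] at e1 e2
    have f1 := b1 v p hp1
    have f2 := b1 w p' hp2
    have hxy : x = y := by
      have g1 : (m : ℤ) * (T * x) < (m : ℤ) * (T * (y + 1)) := by
        have : (m : ℤ) * (T * (y + 1)) = (m : ℤ) * (T * y) + (m : ℤ) * T := by ring
        omega
      have g2 : (m : ℤ) * (T * y) < (m : ℤ) * (T * (x + 1)) := by
        have : (m : ℤ) * (T * (x + 1)) = (m : ℤ) * (T * x) + (m : ℤ) * T := by ring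
        omega
      have g3 := lt_of_mul_lt_mul_left (lt_of_mul_lt_mul_left g1 hm.le) hT'.le
      have g4 := lt_of_mul_lt_mul_left (lt_of_mul_lt_mul_left g2 hm.le) hT'.le
      omega
    subst hxy
    have e : p' = p := Prod.ext (by omega) e2
    subst e
    rw [d1 v w p' hp1 hp2]
  · rintro ⟨x, v⟩ ⟨y, w⟩ hadj
    unfold StarZ at hadj
    rw [SimpleGraph.fromRel_adj] at hadj
    obtain ⟨hne, hadj⟩ := hadj
    simp only at hadj
    rcases hadj with (⟨rfl, rfl⟩ | ⟨rfl, rfl⟩) | (⟨rfl, rfl⟩ | ⟨rfl, rfl⟩)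
    · exact up x v
    · cases w with
      | none => exact absurd rfl hne
      | some i => exact sp x i
    · obtain ⟨a, ha, b, hb, hab⟩ := up y w
      exact ⟨b, hb, a, ha, hab.symm⟩
    · cases v with
      | none => exact absurd rfl hne
      | some i =>
        obtain ⟨a, ha, b, hb, hab⟩ := sp y i
        exact ⟨b, hb, a, ha, hab.symm⟩

end strands

/-- indices of the lines of the strands when the centre is at line `2 i` -/
def idx {q : ℕ} (i : ℕ) : Option (Fin q) → ℕ
  | none => 2 * i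
  | some l => if (l : ℕ) < i then 2 * l + 1 else 2 * l + 2

/-- indices of the lines of the strands when the centre is at line `2 i + 1`, below the crossing -/
def mid {q : ℕ} (i : ℕ) : Option (Fin q) → ℕ
  | none => 2 * i + 1
  | some l => if (l : ℕ) < i then 2 * l + 1 else 2 * l + 2

theorem idx_inj {q : ℕ} (i : ℕ) : Function.Injective (idx i : Option (Fin q) → ℕ) := by
  intro v w hvw
  cases v with
  | none =>
    cases w with
    | none => rfl
    | some k =>
      simp only [idx] at hvw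
      split_ifs at hvw <;> omega
  | some l =>
    cases w with
    | none =>
      simp only [idx] at hvw
      split_ifs at hvw <;> omega
    | some k =>
      simp only [idx] at hvw
      have : l = k := by
        apply Fin.ext
        split_ifs at hvw <;> omega
      rw [this]

theorem mid_inj {q : ℕ} (i : ℕ) : Function.Injective (mid i : Option (Fin q) → ℕ) := by
  intro v w hvw
  cases v with
  | none =>
    cases w with
    | none => rfl
    | some k =>
      simp only [mid] at hvw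
      split_ifs at hvw <;> omega
  | some l =>
    cases w with
    | none =>
      simp only [mid] at hvw
      split_ifs at hvw <;> omega
    | some k =>
      simp only [mid] at hvw
      have : l = k := by
        apply Fin.ext
        split_ifs at hvw <;> omega
      rw [this]

theorem idx_mid {q : ℕ} (i : ℕ) (v w : Option (Fin q)) (hvw : v ≠ w) : idx i v ≠ mid i w := by
  intro h
  cases v with
  | none =>
    cases w with
    | none => exact hvw rfl
    | some k =>
      simp only [idx, mid] at h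
      split_ifs at h <;> omega
  | some l =>
    cases w with
    | none =>
      simp only [idx, mid] at h
      split_ifs at h <;> omega
    | some k =>
      simp only [idx, mid] at h
      have : l = k := by
        apply Fin.ext
        split_ifs at h <;> omega
      exact hvw (by rw [this])

theorem idx_le {q : ℕ} {i : ℕ} (hi : i ≤ q) (v : Option (Fin q)) : idx i v ≤ 2 * q := by
  cases v with
  | none => simp only [idx]; omega
  | some l =>
    have := l.2
    simp only [idx]
    split_ifs <;> omega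

theorem mid_le {q : ℕ} {i : ℕ} (hi : i < q) (v : Option (Fin q)) : mid i v ≤ 2 * q := by
  cases v with
  | none => simp only [mid]; omega
  | some l =>
    have := l.2
    simp only [mid]
    split_ifs <;> omega

/-- the strands theorem -/
theorem strands {J : Type*} {G : SimpleGraph (ℤ × J)} {m : ℕ} (h : Ly G m) (q : ℕ) (ln : ℕ → J)
    (hinj : ∀ a b, a ≤ 2 * q → b ≤ 2 * q → ln a = ln b → a = b)
    (hE : ∀ a, ∃ x y : ℤ, (x - 1 ≤ y ∧ y ≤ x + 1) ∧ G.Adj (x, ln a) (y, ln (a + 1)))
    (hC : ∀ i : ℕ, ∃ x : ℤ, G.Adj (x, ln (2 * i + 1)) (x + 1, ln (2 * i + 2)) ∧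
      G.Adj (x + 1, ln (2 * i + 1)) (x, ln (2 * i + 2))) :
    Mn (StarZ (Fin q)) G := by
  have iI : ∀ i, i ≤ q → Function.Injective (fun v : Option (Fin q) => ln (idx i v)) := by
    intro i hi v w hvw
    exact idx_inj i (hinj _ _ (idx_le hi v) (idx_le hi w) hvw)
  have iM : ∀ i, i < q → Function.Injective (fun v : Option (Fin q) => ln (mid i v)) := by
    intro i hi v w hvw
    exact mid_inj i (hinj _ _ (mid_le hi v) (mid_le hi w) hvw)
  -- the four kinds of moves
  have mA : ∀ i, i < q → Tr G m (fun v : Option (Fin q) => ln (idx i v))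
      (fun v : Option (Fin q) => ln (mid i v)) ∅ := by
    intro i hi
    obtain ⟨x, y, hxy, hadj⟩ := hE (2 * i)
    refine h.move _ _ ∅ x (fun v => if v = none then y else x + 1) ?_ ?_ ?_ (iI i hi.le) (iM i hi)
      (fun i hi => absurd hi (Set.notMem_empty i))
    · intro v
      cases v with
      | none => simpa [idx, mid] using hadj
      | some l => simpa [idx, mid] using h.up x _
    · intro v
      cases v with
      | none => simpa using hxy
      | some l =>
        simp only [reduceCtorEq, if_false]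
        constructor <;> omega
    · intro v w hvw hh
      exact absurd (hinj _ _ (idx_le hi.le v) (mid_le hi w) hh) (idx_mid i v w hvw)
  have mD : ∀ i, i < q → Tr G m (fun v : Option (Fin q) => ln (mid i v))
      (fun v : Option (Fin q) => ln (idx i v)) ∅ := by
    intro i hi
    obtain ⟨x, y, hxy, hadj⟩ := hE (2 * i)
    refine h.move _ _ ∅ y (fun v => if v = none then x else y + 1) ?_ ?_ ?_ (iM i hi) (iI i hi.le)
      (fun i hi => absurd hi (Set.notMem_empty i))
    · intro v
      cases v with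
      | none => simpa [idx, mid] using hadj.symm
      | some l => simpa [idx, mid] using h.up y _
    · intro v
      cases v with
      | none => simp only [if_true]; constructor <;> omega
      | some l =>
        simp only [reduceCtorEq, if_false]
        constructor <;> omega
    · intro v w hvw hh
      exact absurd (hinj _ _ (mid_le hi v) (idx_le hi.le w) hh).symm
        (idx_mid i w v (fun h' => hvw h'.symm))
  have mB : ∀ (i : ℕ) (hi : i < q), Tr G m (fun v : Option (Fin q) => ln (mid i v))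
      (fun v : Option (Fin q) => ln (idx (i + 1) v)) {⟨i, hi⟩} := by
    intro i hi
    obtain ⟨x, hx1, hx2⟩ := hC i
    refine h.move _ _ _ x (fun _ => x + 1) ?_ (fun _ => ⟨by omega, le_refl _⟩)
      (fun _ _ _ _ => by omega) (iM i hi) (iI (i + 1) hi) ?_
    · intro v
      cases v with
      | none =>
        have e : 2 * (i + 1) = 2 * i + 2 := by ring
        simpa [idx, mid, e] using hx1
      | some l =>
        simp only [idx, mid]
        rcases lt_trichotomy (l : ℕ) i with hl | hl | hl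
        · rw [if_pos hl, if_pos (by omega)]
          exact h.up x _
        · rw [if_neg (by omega), if_pos (by omega), hl]
          exact hx2.symm
        · rw [if_neg (by omega), if_neg (by omega)]
          exact h.up x _
    · intro l hl
      rw [Set.mem_singleton_iff] at hl
      subst hl
      simp [idx, mid]
  have mC : ∀ i, i < q → Tr G m (fun v : Option (Fin q) => ln (idx (i + 1) v))
      (fun v : Option (Fin q) => ln (mid i v)) ∅ := by
    intro i hi
    obtain ⟨x, hx1, hx2⟩ := hC i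
    refine h.move _ _ _ x (fun _ => x + 1) ?_ (fun _ => ⟨by omega, le_refl _⟩)
      (fun _ _ _ _ => by omega) (iI (i + 1) hi) (iM i hi)
      (fun i hi => absurd hi (Set.notMem_empty i))
    intro v
    cases v with
    | none =>
      have e : 2 * (i + 1) = 2 * i + 2 := by ring
      simpa [idx, mid, e] using hx2.symm
    | some l =>
      simp only [idx, mid]
      rcases lt_trichotomy (l : ℕ) i with hl | hl | hl
      · rw [if_pos hl, if_pos (by omega)]
        exact h.up x _
      · rw [if_pos (show (l : ℕ) < i + 1 by omega), if_neg (show ¬ (l : ℕ) < i by omega), hl]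
        exact hx1
      · rw [if_neg (by omega), if_neg (by omega)]
        exact h.up x _
  -- the trivial move
  have m0 : Tr G m (fun v : Option (Fin q) => ln (idx 0 v))
      (fun v : Option (Fin q) => ln (idx 0 v)) ∅ := by
    refine h.move _ _ _ 0 (fun _ => 0 + 1) (fun v => h.up 0 _) (fun _ => ⟨by omega, le_refl _⟩)
      (fun _ _ _ _ => by omega) (iI 0 (Nat.zero_le _)) (iI 0 (Nat.zero_le _))
      (fun i hi => absurd hi (Set.notMem_empty i))
  have fw : ∀ i, i ≤ q → Tr G m (fun v : Option (Fin q) => ln (idx 0 v))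
      (fun v : Option (Fin q) => ln (idx i v)) {l : Fin q | (l : ℕ) < i} := by
    intro i
    induction i with
    | zero =>
      intro _
      have : {l : Fin q | (l : ℕ) < 0} = ∅ := by ext l; simp
      rw [this]
      exact m0
    | succ i ih =>
      intro hi
      have e : {l : Fin q | (l : ℕ) < i + 1} = ({l : Fin q | (l : ℕ) < i} ∪ ∅) ∪ {⟨i, hi⟩} := by
        ext l
        simp only [Set.mem_ofPred_eq, Set.union_empty, Set.mem_union, Set.mem_singleton_iff,
          Fin.ext_iff]
        omega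
      rw [e]
      exact h.comp (h.comp (ih (by omega)) (mA i hi)) (mB i hi)
  have bw : ∀ i, i ≤ q → Tr G m (fun v : Option (Fin q) => ln (idx i v))
      (fun v : Option (Fin q) => ln (idx 0 v)) ∅ := by
    intro i
    induction i with
    | zero => intro _; exact m0
    | succ i ih =>
      intro hi
      have e : (∅ : Set (Fin q)) = (∅ ∪ ∅) ∪ ∅ := by simp
      rw [e]
      exact h.comp (h.comp (mC i hi) (mD i hi)) (ih (by omega))
  have e : (Set.univ : Set (Fin q)) = {l : Fin q | (l : ℕ) < q} ∪ ∅ := by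
    ext l
    simp
  have key := h.comp (fw q (le_refl _)) (bw q (le_refl _))
  rw [← e] at key
  exact h.star key

end Pool.Agent.Helper53.NW
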