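import Pool.Agent.Helper53.NW.LCN
import Pool.Agent.Helper53.NW.Strands

/-!
# Project NW+, packet LCX: line systems on a cycle of lines with crossings
-/

set_option autoImplicit false

namespace Pool.Agent.Helper53.NW

open Pool.Agent.Helper52.Wq2 Pool.Agent.Helper61.NW

section lcx

variable {n m : ℕ} {G : SimpleGraph (ℤ × Fin n)}

/-- a crossing between two lines -/
def LCr (G : SimpleGraph (ℤ × Fin n)) (u v : Fin n) : Prop :=
  ∃ a : ℤ, G.Adj (a, u) (a + 1, v) ∧ G.Adj (a + 1, u) (a, v)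

theorem lcr_symm {u v : Fin n} (hc : LCr G u v) : LCr G v u := by
  obtain ⟨a, h1, h2⟩ := hc
  exact ⟨a, h2.symm, h1.symm⟩

theorem lcr_map (L : Lsys n m G) {f : G ≃g G} {τ : Equiv.Perm (Fin n)} {ε : ℤ}
    {c : Fin n → ℤ} (hε : ε = 1 ∨ ε = -1) (hf : ∀ a k, f (a, k) = (ε * a + c k, τ k))
    {u v : Fin n} (hc : LCr G u v) : LCr G (τ u) (τ v) := by
  obtain ⟨a, h1, h2⟩ := hc
  have g1 := f.map_rel_iff.2 h1
  have g2 := f.map_rel_iff.2 h2
  rw [hf, hf] at g1 g2
  have n1 := abs_le.1 (L.near _ _ _ _ g1)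
  have n2 := abs_le.1 (L.near _ _ _ _ g2)
  rcases hε with rfl | rfl
  · have hcc : c u = c v := by omega
    refine ⟨a + c u, ?_, ?_⟩
    · have e1 : a + c u = 1 * a + c u := by ring
      have e2 : a + c u + 1 = 1 * (a + 1) + c v := by rw [hcc]; ring
      rw [e2, e1]
      exact g1
    · have e1 : a + c u + 1 = 1 * (a + 1) + c u := by ring
      have e2 : a + c u = 1 * a + c v := by rw [hcc]; ring
      rw [e1, e2]
      exact g2
  · have hcc : c u = c v := by omega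
    refine ⟨-a - 1 + c u, ?_, ?_⟩
    · have e1 : -a - 1 + c u = -1 * (a + 1) + c u := by ring
      have e2 : -a - 1 + c u + 1 = -1 * a + c v := by rw [hcc]; ring
      rw [e2, e1]
      exact g2
    · have e1 : -a - 1 + c u + 1 = -1 * a + c u := by ring
      have e2 : -a - 1 + c u = -1 * (a + 1) + c v := by rw [hcc]; ring
      rw [e1, e2]
      exact g1

theorem lg_map {f : G ≃g G} {τ : Equiv.Perm (Fin n)} {ε : ℤ}
    {c : Fin n → ℤ} (hf : ∀ a k, f (a, k) = (ε * a + c k, τ k))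
    {u v : Fin n} (hc : (Lg G).Adj u v) : (Lg G).Adj (τ u) (τ v) := by
  unfold Lg at hc ⊢
  rw [SimpleGraph.fromRel_adj] at hc ⊢
  obtain ⟨h1, h2⟩ := hc
  refine ⟨fun h' => h1 (τ.injective h'), ?_⟩
  rcases h2 with ⟨a, b, hab⟩ | ⟨a, b, hab⟩
  · left
    have g1 := f.map_rel_iff.2 hab
    rw [hf, hf] at g1
    exact ⟨_, _, g1⟩
  · right
    have g1 := f.map_rel_iff.2 hab
    rw [hf, hf] at g1
    exact ⟨_, _, g1⟩

theorem lcrs_iff (e : Fin n ≃ ZMod n) (j : ZMod n) :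
    LCrs G e j ↔ LCr G (e.symm j) (e.symm (j + 1)) := by
  constructor
  · rintro ⟨a, u, v, h1, h2, h3⟩
    refine ⟨a, ?_⟩
    rw [← h1, Equiv.symm_apply_apply, h1, ← h2, Equiv.symm_apply_apply]
    exact h3
  · rintro ⟨a, h3⟩
    exact ⟨a, e.symm j, e.symm (j + 1), Equiv.apply_symm_apply _ _, Equiv.apply_symm_apply _ _, h3⟩

/-- neighbours of a translated line -/
theorem lnb (e : Fin n ≃ ZMod n) (he : LCyc G e) {f : G ≃g G} {τ : Equiv.Perm (Fin n)} {ε : ℤ}
    {c : Fin n → ℤ} (hf : ∀ a k, f (a, k) = (ε * a + c k, τ k)) {j j' k : ZMod n}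
    (hx : τ (e.symm j) = e.symm k) (hj : j' = j + 1 ∨ j = j' + 1) :
    e (τ (e.symm j')) = k + 1 ∨ e (τ (e.symm j')) = k - 1 := by
  have h1 : (Lg G).Adj (e.symm j) (e.symm j') := by
    rw [he, Equiv.apply_symm_apply, Equiv.apply_symm_apply]
    exact hj
  have h2 := lg_map hf h1
  rw [hx, he, Equiv.apply_symm_apply] at h2
  rcases h2 with h2 | h2
  · exact Or.inl h2
  · right
    rw [h2]
    ring

theorem lstep1 (L : Lsys n m G) (e : Fin n ≃ ZMod n) (he : LCyc G e) {j : ZMod n}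
    (hj : LCrs G e j) (k : ZMod n) : LCrs G e k ∨ LCrs G e (k - 1) := by
  rw [lcrs_iff] at hj
  obtain ⟨f, τ, ε, c, hε, hx, hf⟩ := L.trans (e.symm j) (e.symm k)
  have h1 := lcr_map L hε hf hj
  rw [hx] at h1
  have h2 := lnb e he hf hx (j' := j + 1) (Or.inl rfl)
  rcases h2 with h2 | h2
  · left
    rw [lcrs_iff, ← h2, Equiv.symm_apply_apply]
    exact h1
  · right
    rw [lcrs_iff, ← h2, Equiv.symm_apply_apply]
    have h3 : e (τ (e.symm (j + 1))) + 1 = k := by rw [h2]; ring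
    rw [h3]
    exact lcr_symm h1

theorem ltwo_ne (hn : 3 ≤ n) (j : ZMod n) : j + 1 ≠ j - 1 := by
  intro h1
  have h2 : ((2 : ℕ) : ZMod n) = 0 := by
    have : (2 : ZMod n) = (j + 1) - (j - 1) := by ring
    push_cast
    rw [this, h1, sub_self]
  rw [ZMod.natCast_eq_zero_iff] at h2
  have := Nat.le_of_dvd (by norm_num) h2
  omega

theorem lstep2 (L : Lsys n m G) (hn : 3 ≤ n) (e : Fin n ≃ ZMod n) (he : LCyc G e) {j : ZMod n}
    (hj : LCrs G e j) (hj' : LCrs G e (j - 1)) (k : ZMod n) : LCrs G e k := by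
  rw [lcrs_iff] at hj hj'
  obtain ⟨f, τ, ε, c, hε, hx, hf⟩ := L.trans (e.symm j) (e.symm k)
  have h1 := lcr_map L hε hf hj
  have h1' := lcr_map L hε hf hj'
  rw [sub_add_cancel, hx] at h1'
  rw [hx] at h1
  have h2 := lnb e he hf hx (j' := j + 1) (Or.inl rfl)
  have h2' := lnb e he hf hx (j' := j - 1) (Or.inr (by ring))
  rcases h2 with h2 | h2
  · rw [lcrs_iff, ← h2, Equiv.symm_apply_apply]
    exact h1
  · rcases h2' with h2' | h2'
    · rw [lcrs_iff, ← h2', Equiv.symm_apply_apply]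
      exact lcr_symm h1'
    · exfalso
      have h3 := e.injective (h2.trans h2'.symm)
      have h4 := e.symm.injective (τ.injective h3)
      exact ltwo_ne hn j h4

theorem lalt (L : Lsys n m G) (hn : 3 ≤ n) (e : Fin n ≃ ZMod n) (he : LCyc G e)
    (hex : ∃ j, LCrs G e j) : ∃ r : ZMod n, ∀ i : ℕ, LCrs G e (r + ((2 * i + 1 : ℕ) : ZMod n)) := by
  obtain ⟨j, hj⟩ := hex
  by_cases hb : ∃ k, LCrs G e k ∧ LCrs G e (k - 1)
  · obtain ⟨k, hk, hk'⟩ := hb
    exact ⟨0, fun i => lstep2 L hn e he hk hk' _⟩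
  · refine ⟨j - 1, ?_⟩
    intro i
    induction i with
    | zero =>
      have e1 : j - 1 + ((2 * 0 + 1 : ℕ) : ZMod n) = j := by push_cast; ring
      rw [e1]
      exact hj
    | succ i ih =>
      set r : ZMod n := j - 1 + ((2 * i + 1 : ℕ) : ZMod n) with hr
      have e1 : j - 1 + ((2 * (i + 1) + 1 : ℕ) : ZMod n) = r + 2 := by
        rw [hr]; push_cast; ring
      rw [e1]
      rcases lstep1 L e he hj (r + 2) with h1 | h1
      · exact h1
      · exfalso
        have e2 : r + 2 - 1 = r + 1 := by ring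
        rw [e2] at h1
        refine hb ⟨r + 1, h1, ?_⟩
        rw [add_sub_cancel_right]
        exact ih

theorem l_ly (L : Lsys n m G) : Ly G m where
  mpos := L.mpos
  up := L.step
  sh := fun c x j y k hadj => (lper L c x y j k).1 hadj

theorem l_edge (L : Lsys n m G) (e : Fin n ≃ ZMod n) (he : LCyc G e) (j : ZMod n) :
    ∃ x y : ℤ, (x - 1 ≤ y ∧ y ≤ x + 1) ∧ G.Adj (x, e.symm j) (y, e.symm (j + 1)) := by
  have hadj : (Lg G).Adj (e.symm j) (e.symm (j + 1)) := by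
    rw [he]
    left
    rw [Equiv.apply_symm_apply, Equiv.apply_symm_apply]
  unfold Lg at hadj
  rw [SimpleGraph.fromRel_adj] at hadj
  rcases hadj.2 with ⟨a, b, hab⟩ | ⟨a, b, hab⟩
  · have h1 := abs_le.1 (L.near _ _ _ _ hab)
    exact ⟨a, b, by constructor <;> omega, hab⟩
  · have h1 := abs_le.1 (L.near _ _ _ _ hab)
    exact ⟨b, a, by constructor <;> omega, hab.symm⟩

end lcx

theorem lcx : LcxStmt := by
  intro n m G L hn e he hex q hq
  obtain ⟨r, hr⟩ := lalt L hn e he hex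
  refine strands (l_ly L) q (fun a : ℕ => e.symm (r + (a : ZMod n))) ?_ ?_ ?_
  · intro a b ha hb hab
    have h2 := add_left_cancel (e.symm.injective hab)
    rw [ZMod.natCast_eq_natCast_iff'] at h2
    rw [Nat.mod_eq_of_lt (by omega), Nat.mod_eq_of_lt (by omega)] at h2
    exact h2
  · intro a
    obtain ⟨x, y, hxy, hadj⟩ := l_edge L e he (r + (a : ZMod n))
    refine ⟨x, y, hxy, ?_⟩
    have e1 : r + (a : ZMod n) + 1 = r + ((a + 1 : ℕ) : ZMod n) := by push_cast; ring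
    rw [e1] at hadj
    exact hadj
  · intro i
    obtain ⟨x, hx1, hx2⟩ := (lcrs_iff e _).1 (hr i)
    have e1 : r + ((2 * i + 1 : ℕ) : ZMod n) + 1 = r + ((2 * i + 2 : ℕ) : ZMod n) := by
      push_cast; ring
    rw [e1] at hx1 hx2
    exact ⟨x, hx1, hx2⟩

end Pool.Agent.Helper53.NW
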